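import Pool.Agent.L7h61.CL.Stm

/-!
# Project TM: chords which grow from the middle (helper61)
-/

set_option autoImplicit false

open Set Topology

noncomputable section

namespace Pool.Agent.L7h61.CL

open Pool.Agent.Y489.GE Pool.Agent.Y50.GE

variable {X : Type} [MetricSpace X]

/-- the centre of the cell of `t` -/
def ctr (δ o t : ℝ) : ℝ := (⌊t / δ - o + 1 / 2⌋ + o) * δ

/-- the chord of half-width `w` around `a` -/
def chv (m : X → X → ℝ → X) (C : ℝ → X) (a w t : ℝ) : X :=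
  m (C (a - w)) (C (a + w)) ((t - a + w) / (2 * w))

/-- chords of half-width `s * δ` around the points `(n + o) * δ` -/
def chd (m : X → X → ℝ → X) (δ o : ℝ) (C : ℝ → X) (s t : ℝ) : X :=
  chv m C (ctr δ o t) (max (s * δ) |t - ctr δ o t|) t

theorem lip_glue {f : ℝ → X} {a b c : ℝ}
    (h1 : ∀ s ∈ Icc a b, ∀ t ∈ Icc a b, dist (f s) (f t) ≤ |s - t|)
    (h2 : ∀ s ∈ Icc b c, ∀ t ∈ Icc b c, dist (f s) (f t) ≤ |s - t|) :
    ∀ s ∈ Icc a c, ∀ t ∈ Icc a c, dist (f s) (f t) ≤ |s - t| := by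
  have key : ∀ s ∈ Icc a c, ∀ t ∈ Icc a c, s ≤ t → dist (f s) (f t) ≤ t - s := by
    intro s hs t ht hst
    rcases le_total t b with h | h
    · refine (h1 s ⟨hs.1, hst.trans h⟩ t ⟨ht.1, h⟩).trans (le_of_eq ?_)
      rw [abs_sub_comm, abs_of_nonneg (by linarith)]
    · rcases le_total s b with h' | h'
      · have e1 := h1 s ⟨hs.1, h'⟩ b ⟨hs.1.trans h', le_rfl⟩
        have e2 := h2 b ⟨le_rfl, h.trans ht.2⟩ t ⟨h, ht.2⟩
        rw [abs_sub_comm, abs_of_nonneg (by linarith)] at e1 e2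
        linarith [dist_triangle (f s) (f b) (f t)]
      · refine (h2 s ⟨h', hs.2⟩ t ⟨h, ht.2⟩).trans (le_of_eq ?_)
        rw [abs_sub_comm, abs_of_nonneg (by linarith)]
  intro s hs t ht
  rcases le_total s t with h | h
  · rw [abs_sub_comm, abs_of_nonneg (by linarith)]
    exact key s hs t ht h
  · rw [dist_comm, abs_of_nonneg (by linarith)]
    exact key t ht s hs h

section

variable {r : ℝ} {m : X → X → ℝ → X} (hm : GMap X r m) {δ : ℝ} (hδ : 0 < δ) (hδr : δ ≤ r)
  {C : ℝ → X} (hC : ∀ s t, dist (C s) (C t) ≤ |s - t|)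

include hδr hC in
theorem chord_le (a : ℝ) {w : ℝ} (h0 : 0 ≤ w) (h1 : w ≤ δ / 2) :
    dist (C (a - w)) (C (a + w)) ≤ 2 * w ∧ dist (C (a - w)) (C (a + w)) ≤ r := by
  have h := hC (a - w) (a + w)
  have e : |a - w - (a + w)| = 2 * w := by
    rw [show a - w - (a + w) = -(2 * w) by ring, abs_neg, abs_of_nonneg (by linarith)]
  rw [e] at h
  exact ⟨h, h.trans (by linarith)⟩

include hm hδr hC in
/-- outside the chord -/
theorem chv_out {a t : ℝ} (h : |t - a| ≤ δ / 2) : chv m C a |t - a| t = C t := by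
  unfold chv
  obtain ⟨-, h2⟩ := chord_le hδr hC a (abs_nonneg (t - a)) h
  rcases lt_trichotomy t a with h3 | h3 | h3
  · have e : |t - a| = a - t := by rw [abs_of_neg (by linarith)]; ring
    rw [e] at h2 ⊢
    rw [show t - a + (a - t) = 0 by ring, zero_div, hm.zero _ _ h2]
    congr 1
    ring
  · have e : |t - a| = 0 := by rw [h3, sub_self, abs_zero]
    rw [e] at h2 ⊢
    rw [h3, sub_self, zero_add, zero_div, hm.zero _ _ h2, sub_zero]
  · have e : |t - a| = t - a := abs_of_pos (by linarith)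
    rw [e] at h2 ⊢
    have e2 : (t - a + (t - a)) / (2 * (t - a)) = 1 := by
      rw [div_eq_one_iff_eq (by linarith)]
      ring
    rw [e2, hm.one _ _ h2]
    congr 1
    ring

include hm hδ hδr hC in
theorem chd_eq {o s : ℝ} (hs : s ∈ Icc (0 : ℝ) (1 / 2)) (n : ℤ) {t : ℝ}
    (ht : t ∈ Icc ((n + o - 1 / 2) * δ) ((n + o + 1 / 2) * δ)) :
    chd m δ o C s t = chv m C ((n + o) * δ) (max (s * δ) |t - (n + o) * δ|) t := by
  unfold chd
  rcases ht.2.lt_or_eq with hlt | heq
  · have h1 : ⌊t / δ - o + 1 / 2⌋ = n := by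
      rw [Int.floor_eq_iff]
      constructor
      · have : n + o - 1 / 2 ≤ t / δ := by rw [le_div_iff₀ hδ]; exact ht.1
        linarith
      · have : t / δ < n + o + 1 / 2 := by rw [div_lt_iff₀ hδ]; exact hlt
        linarith
    have h2 : ctr δ o t = (n + o) * δ := by
      unfold ctr
      rw [h1]
    rw [h2]
  · have h1 : ⌊t / δ - o + 1 / 2⌋ = n + 1 := by
      rw [heq, mul_div_cancel_right₀ _ hδ.ne']
      have : (n : ℝ) + o + 1 / 2 - o + 1 / 2 = ((n + 1 : ℤ) : ℝ) := by push_cast; ring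
      rw [this, Int.floor_intCast]
    have h2 : ctr δ o t = (n + o) * δ + δ := by
      unfold ctr
      rw [h1]
      push_cast
      ring
    rw [h2]
    have e1 : |t - ((n + o) * δ + δ)| = δ / 2 := by
      rw [heq, show ((n : ℝ) + o + 1 / 2) * δ - ((n + o) * δ + δ) = -(δ / 2) by ring, abs_neg,
        abs_of_pos (by linarith)]
    have e2 : |t - (n + o) * δ| = δ / 2 := by
      rw [heq, show ((n : ℝ) + o + 1 / 2) * δ - (n + o) * δ = δ / 2 by ring,
        abs_of_pos (by linarith)]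
    have e3 : s * δ ≤ δ / 2 := by nlinarith [hs.2]
    rw [e1, e2, max_eq_right e3]
    have k1 := chv_out hm hδr hC (a := (n + o) * δ + δ) (t := t) (by rw [e1])
    have k2 := chv_out hm hδr hC (a := (n + o) * δ) (t := t) (by rw [e2])
    rw [e1] at k1
    rw [e2] at k2
    rw [k1, k2]

/-- every point lies in a cell -/
theorem exists_cell (hδ : 0 < δ) (o t : ℝ) :
    ∃ n : ℤ, t ∈ Icc ((n + o - 1 / 2) * δ) ((n + o + 1 / 2) * δ) := by
  refine ⟨⌊t / δ - o + 1 / 2⌋, ?_, ?_⟩
  · have := Int.floor_le (t / δ - o + 1 / 2)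
    rw [← le_div_iff₀ hδ]
    linarith
  · have := (Int.lt_floor_add_one (t / δ - o + 1 / 2)).le
    rw [← div_le_iff₀ hδ]
    linarith

theorem cell_abs {a t : ℝ} (h : t ∈ Icc (a - δ / 2) (a + δ / 2)) : |t - a| ≤ δ / 2 := by
  rw [abs_le]
  exact ⟨by linarith [h.1], by linarith [h.2]⟩

theorem cell_iff {o t : ℝ} (n : ℤ) :
    t ∈ Icc ((n + o - 1 / 2) * δ) ((n + o + 1 / 2) * δ) ↔
      t ∈ Icc ((n + o) * δ - δ / 2) ((n + o) * δ + δ / 2) := by
  have e1 : ((n : ℝ) + o - 1 / 2) * δ = (n + o) * δ - δ / 2 := by ring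
  have e2 : ((n : ℝ) + o + 1 / 2) * δ = (n + o) * δ + δ / 2 := by ring
  rw [e1, e2]

include hm hδ hδr hC in
theorem chd_zero (o t : ℝ) : chd m δ o C 0 t = C t := by
  obtain ⟨n, hn⟩ := exists_cell hδ o t
  rw [chd_eq hm hδ hδr hC ⟨le_rfl, by norm_num⟩ n hn, zero_mul, max_eq_right (abs_nonneg _)]
  exact chv_out hm hδr hC (cell_abs ((cell_iff n).1 hn))

include hm hδ hδr hC in
/-- the values for the full chords -/
theorem chd_half {o : ℝ} (n : ℤ) {t : ℝ}
    (ht : t ∈ Icc ((n + o - 1 / 2) * δ) ((n + o + 1 / 2) * δ)) :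
    chd m δ o C (1 / 2) t = m (C ((n + o - 1 / 2) * δ)) (C ((n + o + 1 / 2) * δ))
      ((t - (n + o - 1 / 2) * δ) / δ) := by
  have h1 := cell_abs ((cell_iff n).1 ht)
  rw [chd_eq hm hδ hδr hC ⟨by norm_num, le_rfl⟩ n ht,
    max_eq_left (by linarith : |t - (n + o) * δ| ≤ 1 / 2 * δ)]
  unfold chv
  congr 1
  · congr 1
    ring
  · congr 1
    ring
  · have : (2 : ℝ) * (1 / 2 * δ) = δ := by ring
    rw [this]
    congr 1
    ring

include hm hδ hδr hC in
theorem chd_lip {o s : ℝ} (hs : s ∈ Icc (0 : ℝ) (1 / 2)) (t t' : ℝ) :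
    dist (chd m δ o C s t) (chd m δ o C s t') ≤ |t - t'| := by
  have key : ∀ n : ℤ, ∀ t ∈ Icc (((n : ℝ) + o) * δ - δ / 2) ((n + o) * δ + δ / 2),
      ∀ t' ∈ Icc (((n : ℝ) + o) * δ - δ / 2) ((n + o) * δ + δ / 2),
      dist (chd m δ o C s t) (chd m δ o C s t') ≤ |t - t'| := by
    intro n
    obtain ⟨a, ha⟩ : ∃ a, a = ((n : ℝ) + o) * δ := ⟨_, rfl⟩
    obtain ⟨w, hw⟩ : ∃ w, w = s * δ := ⟨_, rfl⟩
    have hw0 : 0 ≤ w := by rw [hw]; exact mul_nonneg hs.1 hδ.le
    have hw1 : w ≤ δ / 2 := by rw [hw]; nlinarith [hs.2]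
    have hcell : ∀ t ∈ Icc (a - δ / 2) (a + δ / 2), chd m δ o C s t = chv m C a (max w |t - a|) t := by
      intro t ht
      rw [ha, hw]
      exact chd_eq hm hδ hδr hC hs n ((cell_iff n).2 (ha ▸ ht))
    have hout : ∀ t ∈ Icc (a - δ / 2) (a + δ / 2), w ≤ |t - a| → chd m δ o C s t = C t := by
      intro t ht h
      rw [hcell t ht, max_eq_right h]
      exact chv_out hm hδr hC (cell_abs ht)
    have hin : ∀ t ∈ Icc (a - w) (a + w),
        chd m δ o C s t = m (C (a - w)) (C (a + w)) ((t - a + w) / (2 * w)) := by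
      intro t ht
      have h1 : |t - a| ≤ w := by
        rw [abs_le]
        exact ⟨by linarith [ht.1], by linarith [ht.2]⟩
      rw [hcell t ⟨by linarith [ht.1], by linarith [ht.2]⟩, max_eq_left h1]
      rfl
    rw [← ha]
    have p1 : ∀ t ∈ Icc (a - δ / 2) (a - w), ∀ t' ∈ Icc (a - δ / 2) (a - w),
        dist (chd m δ o C s t) (chd m δ o C s t') ≤ |t - t'| := by
      intro t ht t' ht'
      have q1 : w ≤ |t - a| := by
        rw [abs_sub_comm]
        exact le_trans (by linarith [ht.2]) (le_abs_self _)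
      have q2 : w ≤ |t' - a| := by
        rw [abs_sub_comm]
        exact le_trans (by linarith [ht'.2]) (le_abs_self _)
      rw [hout t ⟨ht.1, by linarith [ht.2]⟩ q1, hout t' ⟨ht'.1, by linarith [ht'.2]⟩ q2]
      exact hC _ _
    have p3 : ∀ t ∈ Icc (a + w) (a + δ / 2), ∀ t' ∈ Icc (a + w) (a + δ / 2),
        dist (chd m δ o C s t) (chd m δ o C s t') ≤ |t - t'| := by
      intro t ht t' ht'
      have q1 : w ≤ |t - a| := le_trans (by linarith [ht.1]) (le_abs_self _)
      have q2 : w ≤ |t' - a| := le_trans (by linarith [ht'.1]) (le_abs_self _)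
      rw [hout t ⟨by linarith [ht.1], ht.2⟩ q1, hout t' ⟨by linarith [ht'.1], ht'.2⟩ q2]
      exact hC _ _
    have p2 : ∀ t ∈ Icc (a - w) (a + w), ∀ t' ∈ Icc (a - w) (a + w),
        dist (chd m δ o C s t) (chd m δ o C s t') ≤ |t - t'| := by
      intro t ht t' ht'
      rcases hw0.eq_or_lt with h0 | h0
      · have e1 : t = a := by
          have := ht.1
          have := ht.2
          linarith
        have e2 : t' = a := by
          have := ht'.1
          have := ht'.2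
          linarith
        rw [e1, e2, dist_self]
        exact abs_nonneg _
      · obtain ⟨d1, d2⟩ := chord_le hδr hC a hw0 hw1
        rw [hin t ht, hin t' ht', hm.dist_eq _ _ d2 _
          ⟨div_nonneg (by linarith [ht.1]) (by linarith),
            div_le_one_of_le₀ (by linarith [ht.2]) (by linarith)⟩ _
          ⟨div_nonneg (by linarith [ht'.1]) (by linarith),
            div_le_one_of_le₀ (by linarith [ht'.2]) (by linarith)⟩, ← sub_div, abs_div,
          abs_of_pos (by linarith : 0 < 2 * w)]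
        have e1 : t - a + w - (t' - a + w) = t - t' := by ring
        rw [e1]
        calc |t - t'| / (2 * w) * dist (C (a - w)) (C (a + w)) ≤ |t - t'| / (2 * w) * (2 * w) :=
              mul_le_mul_of_nonneg_left d1 (by positivity)
          _ = |t - t'| := by field_simp
    exact lip_glue (lip_glue p1 p2) p3
  have h := glue (fun u => chd m δ o C s (u + (o - 1 / 2) * δ)) (L := 1) hδ (by
    intro n u hu u' hu'
    rw [one_mul]
    refine (key n _ ?_ _ ?_).trans (le_of_eq ?_)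
    · constructor
      · nlinarith [hu.1]
      · nlinarith [hu.2]
    · constructor
      · nlinarith [hu'.1]
      · nlinarith [hu'.2]
    · congr 1
      ring) (t - (o - 1 / 2) * δ) (t' - (o - 1 / 2) * δ)
  simp only [sub_add_cancel, one_mul] at h
  rwa [show t - (o - 1 / 2) * δ - (t' - (o - 1 / 2) * δ) = t - t' by ring] at h

include hm hδ hδr hC in
theorem chd_rev (hs : MSym r m) {o s : ℝ} (ho : ∃ j : ℤ, 2 * o = j)
    (hs' : s ∈ Icc (0 : ℝ) (1 / 2)) (t : ℝ) :
    chd m δ o (fun u => C (-u)) s t = chd m δ o C s (-t) := by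
  obtain ⟨j, hj⟩ := ho
  obtain ⟨n, hn⟩ := exists_cell hδ o t
  have hC' : ∀ s t, dist (C (-s)) (C (-t)) ≤ |s - t| := by
    intro s t
    refine (hC _ _).trans (le_of_eq ?_)
    rw [abs_sub_comm]
    congr 1
    ring
  have e0 : (((-n - j : ℤ) : ℝ) + o) * δ = -((n + o) * δ) := by
    push_cast
    rw [← hj]
    ring
  have hn' : -t ∈ Icc ((((-n - j : ℤ) : ℝ) + o - 1 / 2) * δ)
      ((((-n - j : ℤ) : ℝ) + o + 1 / 2) * δ) := by
    rw [cell_iff, e0]
    have := (cell_iff n).1 hn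
    exact ⟨by linarith [this.2], by linarith [this.1]⟩
  rw [chd_eq hm hδ hδr hC' hs' n hn, chd_eq hm hδ hδr hC hs' (-n - j) hn', e0]
  obtain ⟨a, ha⟩ : ∃ a, a = ((n : ℝ) + o) * δ := ⟨_, rfl⟩
  rw [← ha]
  have e1 : |-t - -a| = |t - a| := by
    rw [abs_sub_comm]
    congr 1
    ring
  rw [e1]
  have hab : |t - a| ≤ δ / 2 := by
    rw [ha]
    exact cell_abs ((cell_iff n).1 hn)
  obtain ⟨w, hw⟩ : ∃ w, w = max (s * δ) |t - a| := ⟨_, rfl⟩
  rw [← hw]
  have hw0 : |t - a| ≤ w := by rw [hw]; exact le_max_right _ _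
  have hw1 : w ≤ δ / 2 := by
    rw [hw]
    exact max_le (by nlinarith [hs'.2]) hab
  have hw2 : 0 ≤ w := (abs_nonneg _).trans hw0
  unfold chv
  obtain ⟨d1, d2⟩ := chord_le hδr hC (-a) hw2 hw1
  have e2 : -(a - w) = -a + w := by ring
  have e3 : -(a + w) = -a - w := by ring
  dsimp only
  rw [e2, e3]
  rcases hw2.eq_or_lt with h0 | h0
  · rw [← h0, mul_zero, div_zero, div_zero, add_zero, sub_zero]
  · have hab' := abs_le.1 hw0
    rw [hs (C (-a + w)) (C (-a - w)) (by rw [dist_comm]; exact d2) _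
      ⟨div_nonneg (by linarith [hab'.1]) (by linarith),
        div_le_one_of_le₀ (by linarith [hab'.2]) (by linarith)⟩]
    congr 1
    field_simp
    ring

include hm hδ hδr in
theorem chd_const {o s : ℝ} (hs : s ∈ Icc (0 : ℝ) (1 / 2)) (x : X) (t : ℝ) :
    chd m δ o (fun _ => x) s t = x := by
  obtain ⟨n, hn⟩ := exists_cell hδ o t
  rw [chd_eq hm hδ hδr (fun s t => by rw [dist_self]; exact abs_nonneg _) hs n hn]
  unfold chv
  have hw0 : |t - (n + o) * δ| ≤ max (s * δ) |t - (n + o) * δ| := le_max_right _ _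
  have hab' := abs_le.1 hw0
  have hw2 : 0 ≤ max (s * δ) |t - (n + o) * δ| := (abs_nonneg _).trans hw0
  exact hm.self (hδ.le.trans hδr) x ⟨div_nonneg (by linarith [hab'.1]) (by linarith),
        div_le_one_of_le₀ (by linarith [hab'.2]) (by linarith)⟩

end

/-- periodicity -/
theorem chd_per {m : X → X → ℝ → X} {δ : ℝ} (hδ : 0 < δ) {N : ℕ} {C : ℝ → X}
    (hC : ∀ t, C (t + N * δ) = C t) (o s t : ℝ) :
    chd m δ o C s (t + N * δ) = chd m δ o C s t := by
  have h1 : ctr δ o (t + N * δ) = ctr δ o t + N * δ := by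
    unfold ctr
    have e : (t + N * δ) / δ - o + 1 / 2 = (t / δ - o + 1 / 2) + ((N : ℤ) : ℝ) := by
      push_cast
      field_simp
      ring
    rw [e, Int.floor_add_intCast]
    push_cast
    ring
  unfold chd
  rw [h1]
  have e2 : t + N * δ - (ctr δ o t + N * δ) = t - ctr δ o t := by ring
  rw [e2]
  unfold chv
  obtain ⟨w, hw⟩ : ∃ w, w = max (s * δ) |t - ctr δ o t| := ⟨_, rfl⟩
  rw [← hw, e2]
  have e3 : ctr δ o t + N * δ - w = ctr δ o t - w + N * δ := by ring
  have e4 : ctr δ o t + N * δ + w = ctr δ o t + w + N * δ := by ring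
  rw [e3, e4, hC, hC]

/-- continuity -/
theorem chd_cont {r : ℝ} {m : X → X → ℝ → X} (hm : GMap X r m) {δ : ℝ} (hδ : 0 < δ)
    (hδr : δ ≤ r) (o : ℝ) {Z : Type} [TopologicalSpace Z] {F : Z → ℝ → X} {u : Z → ℝ}
    (hF : Continuous F) (hL : ∀ z s t, dist (F z s) (F z t) ≤ |s - t|) (hu : Continuous u)
    (hu1 : ∀ z, u z ∈ Icc (0 : ℝ) (1 / 2)) : Continuous fun z => chd m δ o (F z) (u z) := by
  rw [continuous_pi_iff]
  intro t
  obtain ⟨n, hn⟩ := exists_cell hδ o t
  obtain ⟨a, ha⟩ : ∃ a, a = ((n : ℝ) + o) * δ := ⟨_, rfl⟩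
  have hab : |t - a| ≤ δ / 2 := by
    rw [ha]
    exact cell_abs ((cell_iff n).1 hn)
  have heq : (fun z => chd m δ o (F z) (u z) t) =
      fun z => chv m (F z) a (max (u z * δ) |t - a|) t := by
    funext z
    rw [ha]
    exact chd_eq hm hδ hδr (hL z) (hu1 z) n hn
  rw [heq]
  have cw : Continuous fun z => max (u z * δ) |t - a| := by fun_prop
  have hw0 : ∀ z, |t - a| ≤ max (u z * δ) |t - a| := fun z => le_max_right _ _
  have hw1 : ∀ z, max (u z * δ) |t - a| ≤ δ / 2 := fun z =>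
    max_le (by nlinarith [(hu1 z).2]) hab
  have hw2 : ∀ z, 0 ≤ max (u z * δ) |t - a| := fun z => (abs_nonneg _).trans (hw0 z)
  have c1 : Continuous fun z => F z (a - max (u z * δ) |t - a|) :=
    eval_cont hF hL (continuous_const.sub cw)
  have c2 : Continuous fun z => F z (a + max (u z * δ) |t - a|) :=
    eval_cont hF hL (continuous_const.add cw)
  have hd := fun z => (chord_le hδr (hL z) a (hw2 z) (hw1 z)).2
  unfold chv
  rcases eq_or_ne t a with h0 | h0
  · have heq2 : (fun z => m (F z (a - max (u z * δ) |t - a|)) (F z (a + max (u z * δ) |t - a|))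
        ((t - a + max (u z * δ) |t - a|) / (2 * max (u z * δ) |t - a|))) =
        fun z => m (F z (a - max (u z * δ) |t - a|)) (F z (a + max (u z * δ) |t - a|)) (1 / 2) := by
      funext z
      obtain ⟨w, hw⟩ : ∃ w, w = max (u z * δ) |t - a| := ⟨_, rfl⟩
      rw [← hw]
      rcases eq_or_ne w 0 with h1 | h1
      · rw [h1, h0, sub_self, add_zero, mul_zero, div_zero, sub_zero,
          hm.self (hδ.le.trans hδr) _ ⟨le_rfl, zero_le_one⟩,
          hm.self (hδ.le.trans hδr) _ ⟨by norm_num, by norm_num⟩]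
      · congr 1
        rw [h0, sub_self, zero_add]
        field_simp
    rw [heq2]
    exact hm.cont.comp_continuous (c1.prodMk (c2.prodMk continuous_const))
      (fun z => ⟨hd z, by norm_num, by norm_num⟩)
  · have hpos : 0 < |t - a| := abs_pos.2 (sub_ne_zero.2 h0)
    have c3 : Continuous fun z => (t - a + max (u z * δ) |t - a|) / (2 * max (u z * δ) |t - a|) := by
      refine (continuous_const.add cw).div (continuous_const.mul cw) ?_
      intro z
      have := hw0 z
      linarith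
    refine hm.cont.comp_continuous (c1.prodMk (c2.prodMk c3)) ?_
    intro z
    have hab' := abs_le.1 (hw0 z)
    exact ⟨hd z, div_nonneg (by linarith [hab'.1]) (by linarith [hw2 z]),
        div_le_one_of_le₀ (by linarith [hab'.2]) (by linarith [hw2 z])⟩

end Pool.Agent.L7h61.CL
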