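import Pool.Agent.L7h61.CL.Glue

/-!
# Unique minimal geodesics and the gluing theorem (helper61)
-/

set_option autoImplicit false

open Set Topology Filter

noncomputable section

namespace Pool.Agent.L7h61.CL

open Pool.Agent.Y489.GE

variable {X : Type} [MetricSpace X]

/-- `x` and `y` are joined by two different minimal geodesics (in a geodesic space): there are two
different points at the same distance from `x` which lie between `x` and `y` -/
def TwoGeod {X : Type} [MetricSpace X] (x y : X) : Prop :=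
  ∃ z w : X, z ≠ w ∧ dist x z + dist z y = dist x y ∧ dist x w + dist w y = dist x y ∧
    dist x z = dist x w

/-- the cut locus of a point: the closure of the set of all points which are joined to it by two
different minimal geodesics -/
def CutLocus {X : Type} [MetricSpace X] (p : X) : Set X := closure {x | TwoGeod p x}

/-- the cut relation: the closure of the set of pairs of points which are joined by two different
minimal geodesics -/
def CutRel (X : Type) [MetricSpace X] : Set (X × X) := closure {z | TwoGeod z.1 z.2}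

/-- minimal geodesics parametrised by arc length -/
theorem exists_field [CompactSpace X] (hX : GeodSpace X) :
    ∃ Θ : X × X → ℝ → X, (∀ z, Trk (Θ z) z.1 z.2 (dist z.1 z.2)) ∧
      ∀ S : Set (X × X), (∀ z ∈ S, ¬ TwoGeod z.1 z.2) → ContinuousOn Θ S := by
  choose c hc0 hc1 hcd using fun z : X × X => hX z.1 z.2
  set τ : X × X → ℝ → ℝ := fun z t => max 0 (min t (dist z.1 z.2)) with hτ
  have hτ0 : ∀ z t, 0 ≤ τ z t := fun z t => le_max_left _ _
  have hτ1 : ∀ z t, τ z t ≤ dist z.1 z.2 := fun z t => max_le dist_nonneg (min_le_right _ _)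
  have hτI : ∀ z t, τ z t / dist z.1 z.2 ∈ Icc (0 : ℝ) 1 := fun z t =>
    ⟨div_nonneg (hτ0 z t) dist_nonneg, div_le_one_of_le₀ (hτ1 z t) dist_nonneg⟩
  have hmul : ∀ z t, τ z t / dist z.1 z.2 * dist z.1 z.2 = τ z t := by
    intro z t
    rcases eq_or_ne (dist z.1 z.2) 0 with h | h
    · have h1 := hτ1 z t
      have h2 := hτ0 z t
      rw [h] at h1
      rw [h, mul_zero]
      linarith
    · exact div_mul_cancel₀ _ h
  set Θ : X × X → ℝ → X := fun z t => c z (τ z t / dist z.1 z.2) with hΘ
  have hl : ∀ z t, dist z.1 (Θ z t) = τ z t := by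
    intro z t
    have h1 := hcd z 0 ⟨le_rfl, zero_le_one⟩ _ (hτI z t)
    rw [hc0, zero_sub, abs_neg, abs_of_nonneg (hτI z t).1, hmul] at h1
    exact h1
  have hrt : ∀ z t, dist (Θ z t) z.2 = dist z.1 z.2 - τ z t := by
    intro z t
    have h1 := hcd z _ (hτI z t) 1 ⟨zero_le_one, le_rfl⟩
    rw [hc1, abs_sub_comm, abs_of_nonneg (by linarith [(hτI z t).2]), sub_mul, one_mul,
      hmul] at h1
    exact h1
  have hdc : Continuous fun z : X × X => dist z.1 z.2 := continuous_fst.dist continuous_snd
  have hτc : ∀ t, Continuous fun z => τ z t := fun t =>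
    continuous_const.max (continuous_const.min hdc)
  refine ⟨Θ, fun z => ⟨fun s t => ?_, fun t ht => ?_, fun t ht => ?_⟩, fun S hS => ?_⟩
  · have h1 := hcd z _ (hτI z s) _ (hτI z t)
    have h2 : |τ z s / dist z.1 z.2 - τ z t / dist z.1 z.2| * dist z.1 z.2 =
        |τ z s - τ z t| := by
      rw [← abs_of_nonneg (dist_nonneg (x := z.1) (y := z.2)), ← abs_mul, sub_mul,
        abs_of_nonneg (dist_nonneg (x := z.1) (y := z.2)), hmul, hmul]
    rw [h2] at h1
    refine h1.le.trans ?_
    refine (abs_max_sub_max_le_max _ _ _ _).trans ?_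
    rw [sub_self, abs_zero]
    refine max_le (abs_nonneg _) ?_
    refine (abs_min_sub_min_le_max _ _ _ _).trans ?_
    rw [sub_self, abs_zero]
    exact max_le le_rfl (abs_nonneg _)
  · have h1 := hl z t
    have h2 : τ z t = 0 := max_eq_left ((min_le_left _ _).trans ht)
    rw [h2] at h1
    exact (dist_eq_zero.1 h1).symm
  · have h1 := hrt z t
    have h2 : τ z t = dist z.1 z.2 := by
      simp only [hτ]
      rw [min_eq_right ht, max_eq_right dist_nonneg]
    rw [h2, sub_self] at h1
    exact dist_eq_zero.1 h1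
  · rw [continuousOn_pi]
    intro t z hz
    show Tendsto (fun z => Θ z t) (𝓝[S] z) (𝓝 (Θ z t))
    rw [tendsto_iff_ultrafilter]
    intro g hg
    have hg1 : (g : Filter (X × X)) ≤ 𝓝 z := hg.trans nhdsWithin_le_nhds
    obtain ⟨w, -, hw⟩ := (isCompact_univ : IsCompact (univ : Set X)).ultrafilter_le_nhds
      (g.map (fun z => Θ z t)) (by simp)
    have hw' : Tendsto (fun z => Θ z t) (g : Filter (X × X)) (𝓝 w) := hw
    have hx : Tendsto (fun z : X × X => z.1) (g : Filter (X × X)) (𝓝 z.1) :=
      (continuous_fst.tendsto z).mono_left hg1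
    have hy : Tendsto (fun z : X × X => z.2) (g : Filter (X × X)) (𝓝 z.2) :=
      (continuous_snd.tendsto z).mono_left hg1
    have hτt : Tendsto (fun z => τ z t) (g : Filter (X × X)) (𝓝 (τ z t)) :=
      ((hτc t).tendsto z).mono_left hg1
    have e1 : dist z.1 w = τ z t := by
      refine tendsto_nhds_unique (hx.dist hw') (hτt.congr fun z' => ?_)
      exact (hl z' t).symm
    have e2 : dist w z.2 = dist z.1 z.2 - τ z t := by
      refine tendsto_nhds_unique (hw'.dist hy) (((hx.dist hy).sub hτt).congr fun z' => ?_)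
      exact (hrt z' t).symm
    have e3 : Θ z t = w := by
      by_contra hne
      refine hS z hz ⟨Θ z t, w, hne, ?_, ?_, ?_⟩
      · rw [hl, hrt]; ring
      · rw [e1, e2]; ring
      · rw [hl, e1]
    rw [e3]
    exact hw'

/-- a track followed by another one -/
def seq (α β : ℝ → X) (T t : ℝ) : X := if t ≤ T then α t else β (t - T)

theorem seq_right {α β : ℝ → X} {x y z : X} {T T' t : ℝ} (hα : Trk α x y T) (hβ : Trk β y z T')
    (h : T ≤ t) : seq α β T t = β (t - T) := by
  unfold seq
  split_ifs with h1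
  · have h2 : t = T := le_antisymm h1 h
    rw [h2, hα.2.2 T le_rfl, hβ.2.1 _ (by linarith)]
  · rfl

theorem Trk.seq {α β : ℝ → X} {x y z : X} {T T' : ℝ} (hα : Trk α x y T) (hβ : Trk β y z T')
    (h0 : 0 ≤ T) (h0' : 0 ≤ T') : Trk (seq α β T) x z (T + T') := by
  have hleft : ∀ t, t ≤ T → CL.seq α β T t = α t := fun t ht => if_pos ht
  refine ⟨?_, fun t ht => ?_, fun t ht => ?_⟩
  · have key : ∀ s t : ℝ, s ≤ t → dist (CL.seq α β T s) (CL.seq α β T t) ≤ t - s := by
      intro s t hst
      rcases le_total t T with h1 | h1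
      · rw [hleft s (hst.trans h1), hleft t h1]
        refine (hα.1 _ _).trans (le_of_eq ?_)
        rw [abs_sub_comm, abs_of_nonneg (by linarith)]
      · rcases le_total s T with h2 | h2
        · rw [hleft s h2, seq_right hα hβ h1]
          have e1 : dist (α s) (α T) ≤ T - s := by
            refine (hα.1 _ _).trans (le_of_eq ?_)
            rw [abs_sub_comm, abs_of_nonneg (by linarith)]
          have e2 : dist (β 0) (β (t - T)) ≤ t - T := by
            refine (hβ.1 _ _).trans (le_of_eq ?_)
            rw [abs_sub_comm, abs_of_nonneg (by linarith)]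
            ring
          have e3 : α T = β 0 := by rw [hα.2.2 T le_rfl, hβ.2.1 0 le_rfl]
          calc dist (α s) (β (t - T)) ≤ dist (α s) (α T) + dist (α T) (β (t - T)) :=
                dist_triangle _ _ _
            _ ≤ (T - s) + (t - T) := by rw [e3] at e1 ⊢; exact add_le_add e1 e2
            _ = t - s := by ring
        · rw [seq_right hα hβ h2, seq_right hα hβ h1]
          refine (hβ.1 _ _).trans (le_of_eq ?_)
          rw [abs_sub_comm, abs_of_nonneg (by linarith)]
          ring
    intro s t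
    rcases le_total s t with h | h
    · rw [abs_sub_comm, abs_of_nonneg (by linarith)]
      exact key s t h
    · rw [dist_comm, abs_of_nonneg (by linarith)]
      exact key t s h
  · rw [hleft t (ht.trans h0), hα.2.1 t ht]
  · rw [seq_right hα hβ (by linarith), hβ.2.2 _ (by linarith)]

theorem seq_cont {W : Type} [TopologicalSpace W] {S : Set W} {α β : W → ℝ → X} {x y z : W → X}
    {T T' : W → ℝ} (hα : ContinuousOn α S) (hβ : ContinuousOn β S) (hT : ContinuousOn T S)
    (hα1 : ∀ w ∈ S, Trk (α w) (x w) (y w) (T w)) (hβ1 : ∀ w ∈ S, Trk (β w) (y w) (z w) (T' w)) :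
    ContinuousOn (fun w => CL.seq (α w) (β w) (T w)) S := by
  rw [continuousOn_iff_continuous_domRestrict] at *
  rw [continuous_pi_iff]
  intro t
  have hα' : Continuous fun w : ↥S => α w.1 := hα
  have hβ' : Continuous fun w : ↥S => β w.1 := hβ
  have hT' : Continuous fun w : ↥S => T w.1 := hT
  change Continuous fun w : ↥S => CL.seq (α w.1) (β w.1) (T w.1) t
  unfold CL.seq
  refine Continuous.if_le ((continuous_apply t).comp hα')
    (eval_cont hβ' (fun w => (hβ1 w.1 w.2).1) (continuous_const.sub hT')) continuous_const hT' ?_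
  intro w hw
  rw [(hα1 w.1 w.2).2.2 t (le_of_eq hw.symm), (hβ1 w.1 w.2).2.1 _ (by linarith)]

/-- gluing, for open covers of normal spaces -/
theorem glue_open {c : ℝ} (hC : FillC X c) (W : Type) [TopologicalSpace W] [NormalSpace W]
    (f g : C(W, X)) (A B : Set W) (hA : IsOpen A) (hB : IsOpen B) (hAB : A ∪ B = univ)
    (α β : W → ℝ → X) (S T : W → ℝ) (hα : ContinuousOn α A) (hβ : ContinuousOn β B)
    (hS : ContinuousOn S A) (hT : ContinuousOn T B)
    (hα1 : ∀ w ∈ A, Trk (α w) (f w) (g w) (S w) ∧ 0 ≤ S w)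
    (hβ1 : ∀ w ∈ B, Trk (β w) (f w) (g w) (T w) ∧ 0 ≤ T w)
    (hc : ∀ w ∈ A, w ∈ B → S w + T w ≤ c) : f.Homotopic g := by
  have hdisj : Disjoint Bᶜ Aᶜ := by
    rw [disjoint_compl_left_iff_subset]
    intro w hw
    have : w ∈ A ∪ B := by rw [hAB]; exact mem_univ w
    exact this.resolve_left hw
  obtain ⟨u, hu0, hu1, -⟩ := exists_continuous_zero_one_of_isClosed hB.isClosed_compl
    hA.isClosed_compl hdisj
  have hinA : ∀ w, u w ≤ 2 / 3 → w ∈ A := by
    intro w hw
    by_contra h
    have : u w = 1 := hu1 h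
    linarith
  have hinB : ∀ w, 1 / 3 ≤ u w → w ∈ B := by
    intro w hw
    by_contra h
    have : u w = 0 := hu0 h
    linarith
  obtain ⟨H, h1, h2, h3, -⟩ := glueU hC W (fun w => u w) (map_continuous u) α β
    (fun w => f w) (fun w => g w) S T (hα.mono hinA) (hβ.mono hinB) (hS.mono hinA)
    (hT.mono hinB) (fun w hw => hα1 w (hinA w hw)) (fun w hw => hβ1 w (hinB w hw))
    (fun w hw hw' => hc w (hinA w hw) (hinB w hw'))
  refine ⟨⟨⟨fun z => H z.2 z.1.1, ?_⟩, h2, h3⟩⟩
  exact h1.comp_continuous (continuous_snd.prodMk (continuous_subtype_val.comp continuous_fst))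
    fun z => z.1.2

end Pool.Agent.L7h61.CL
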