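import Pool.Agent.L7h61.CL.Sym

/-!
# Project TM: PART A (helper61)
-/

set_option autoImplicit false

open Set Topology

noncomputable section

namespace Pool.Agent.L7h61.CL

open Pool.Agent.Y489.GE Pool.Agent.Y50.GE Pool.Agent.Y590.GE

/-- no closed geodesics of length at most `c`: the symmetric contraction -/
theorem dsym_of_no (h_CG : S_CG) (h_EN : S_EN) : S_DSYM := by
  classical
  intro X _ _ r m hr hm hs c hc hno
  obtain ⟨N, hN⟩ := exists_nat_gt (c / (r / 2))
  have hN0 : (0 : ℝ) < N := lt_trans (by positivity) hN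
  have hN' : N ≠ 0 := by
    rintro rfl
    simp at hN0
  have : NeZero N := ⟨hN'⟩
  have hN1 : (1 : ℝ) ≤ N := by exact_mod_cast Nat.one_le_iff_ne_zero.2 hN'
  obtain ⟨δ, hδdef⟩ : ∃ δ, δ = c / N := ⟨_, rfl⟩
  have hδ : 0 < δ := by rw [hδdef]; positivity
  have hδr2 : δ ≤ r / 2 := by
    rw [div_lt_iff₀ (by linarith : (0 : ℝ) < r / 2)] at hN
    rw [hδdef, div_le_iff₀ hN0]
    linarith
  have hδr : δ ≤ r := by linarith
  have hNδ : c = N * δ := by rw [hδdef]; field_simp
  obtain ⟨k, hk⟩ := uniform_steps h_EN hm N hδ hδr (by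
    intro x hx hxe he
    apply hno
    have hpos : 0 < En N x := lt_of_lt_of_le (by positivity) hxe
    have := h_CG X r m hm N δ hδr x hx he hpos
    rwa [← hNδ] at this)
  set e : ℝ := δ / (2 * N) with he
  have he0 : 0 < e := by positivity
  -- the polygons
  have hpx : ∀ (j : ℕ) (C : ↥(Per X c)),
      px (N := N) hm hδ hδr hNδ j C = (ph m N (1 / 2))^[j] (px hm hδ hδr hNδ 0 C) := by
    intro j C
    induction j with
    | zero => rfl
    | succ j ih => rw [px_succ, ih, Function.iterate_succ_apply']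
  have hEn : ∀ C : ↥(Per X c), En N (px (N := N) hm hδ hδr hNδ k C) < e ^ 2 := by
    intro C
    rw [hpx k C]
    exact hk _ (px_mem hm hδ hδr hNδ 0 C)
  set Ck : ↥(Per X c) → ↥(Per X c) := itr (m := m) hm hδ hδr hNδ (k + 1) with hCk
  have hfar1 : ∀ (C : ↥(Per X c)) (t : ℝ),
      dist ((Ck C).1 t) (vx hm hδ hδr hNδ k C 0) ≤ δ := by
    intro C t
    obtain ⟨n, hn⟩ : ∃ n : ℤ, n = ⌊t / δ - k / 2⌋ := ⟨_, rfl⟩
    have h1 : (n : ℝ) ≤ t / δ - k / 2 := by rw [hn]; exact Int.floor_le _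
    have h2 : t / δ - k / 2 ≤ n + 1 := by rw [hn]; exact (Int.lt_floor_add_one _).le
    have hθ : t / δ - k / 2 - n ∈ Icc (0 : ℝ) 1 := ⟨by linarith, by linarith⟩
    have h3 := itr_side hm hδ hδr hNδ k C n hθ
    have h4 : ((n : ℝ) + k / 2 + (t / δ - k / 2 - n)) * δ = t := by
      field_simp
      ring
    rw [h4] at h3
    have h5 : dist (vx hm hδ hδr hNδ k C n) (vx hm hδ hδr hNδ k C (n + 1)) < e := by
      have h6 := side_lt N he0 (hEn C) (n : ZMod N)
      have e1 : ((n : ZMod N) + 1) = ((n + 1 : ℤ) : ZMod N) := by push_cast; rfl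
      rw [e1, px_int, px_int] at h6
      exact h6
    have h6 : dist (vx hm hδ hδr hNδ k C n) (vx hm hδ hδr hNδ k C 0) ≤ N * e := by
      have h7 := far_le N he0 (hEn C) (n : ZMod N)
      have e1 : (0 : ZMod N) = ((0 : ℤ) : ZMod N) := by push_cast; rfl
      rw [e1, px_int, px_int] at h7
      exact h7
    have he1 : e ≤ δ / 2 := by
      rw [he, div_le_div_iff₀ (by positivity) (by norm_num)]
      nlinarith
    have h7 : (N : ℝ) * e = δ / 2 := by
      rw [he]
      field_simp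
    have h8 : dist (vx hm hδ hδr hNδ k C n) ((Ck C).1 t) ≤ e := by
      change dist _ ((itr hm hδ hδr hNδ (k + 1) C).1 t) ≤ e
      rw [h3, hm.dist_left (h5.le.trans (by linarith)) hθ]
      have : 0 ≤ dist (vx hm hδ hδr hNδ k C n) (vx hm hδ hδr hNδ k C (n + 1)) := dist_nonneg
      nlinarith [hθ.2, hθ.1]
    calc dist ((Ck C).1 t) (vx hm hδ hδr hNδ k C 0) ≤
        dist ((Ck C).1 t) (vx hm hδ hδr hNδ k C n) +
          dist (vx hm hδ hδr hNδ k C n) (vx hm hδ hδr hNδ k C 0) := dist_triangle _ _ _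
      _ ≤ e + N * e := by
          rw [dist_comm ((Ck C).1 t)]
          exact add_le_add h8 h6
      _ ≤ δ := by rw [h7]; linarith
  have hfar : ∀ (C : ↥(Per X c)) (t t' : ℝ), dist ((Ck C).1 t) ((Ck C).1 t') ≤ r := by
    intro C t t'
    have h1 := hfar1 C t
    have h2 := hfar1 C t'
    have h3 := dist_triangle_right ((Ck C).1 t) ((Ck C).1 t') (vx hm hδ hδr hNδ k C 0)
    linarith
  obtain ⟨H, g1, g2, g3, g4⟩ := itr_SH hm hs hδ hδr hNδ (k + 1)
  have hCkc : Continuous Ck := itr_cont hm hδ hδr hNδ (k + 1)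
  have hCkr : ∀ C : ↥(Per X c), (Ck ⟨rv C.1, rv_mem C.2⟩).1 = rv (Ck C).1 :=
    itr_rev hm hs hδ hδr hNδ (k + 1)
  set A : ↥(Per X c) → ℝ → ℝ → X := fun C s t => (H C (2 * s)).1 t with hA
  set B : ↥(Per X c) → ℝ → ℝ → X := fun C s t => m ((Ck C).1 t) ((Ck C).1 0) (c1 (2 * s - 1))
    with hB
  have hc1 : ∀ s, c1 s ∈ Icc (0 : ℝ) 1 := fun s =>
    ⟨le_max_left _ _, max_le zero_le_one (min_le_right _ _)⟩
  have hAc : Continuous fun q : ↥(Per X c) × ℝ × ℝ => A q.1 q.2.1 q.2.2 := by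
    refine eval_cont (F := fun q : ↥(Per X c) × ℝ × ℝ => (H q.1 (2 * q.2.1)).1)
      (τ := fun q => q.2.2) ?_ (fun q => (H q.1 (2 * q.2.1)).2.1)
      (continuous_snd.comp continuous_snd)
    exact continuous_subtype_val.comp (g1.comp (continuous_fst.prodMk
      (continuous_const.mul (continuous_fst.comp continuous_snd))))
  have hBc : Continuous fun q : ↥(Per X c) × ℝ × ℝ => B q.1 q.2.1 q.2.2 := by
    have e1 : Continuous fun q : ↥(Per X c) × ℝ × ℝ => (Ck q.1).1 :=
      continuous_subtype_val.comp (hCkc.comp continuous_fst)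
    have e2 : Continuous fun q : ↥(Per X c) × ℝ × ℝ => (Ck q.1).1 q.2.2 :=
      eval_cont e1 (fun q => (Ck q.1).2.1) (continuous_snd.comp continuous_snd)
    have e3 : Continuous fun q : ↥(Per X c) × ℝ × ℝ => (Ck q.1).1 0 :=
      (continuous_apply 0).comp e1
    have e4 : Continuous fun q : ↥(Per X c) × ℝ × ℝ => c1 (2 * q.2.1 - 1) :=
      c1_cont.comp ((continuous_const.mul (continuous_fst.comp continuous_snd)).sub
        continuous_const)
    exact hm.cont.comp_continuous (e2.prodMk (e3.prodMk e4)) fun q => ⟨hfar _ _ _, hc1 _⟩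
  set D' : ↥(Per X c) → ℝ → ℝ → X := fun C s t => if s ≤ 1 / 2 then A C s t else B C s t with hD'
  have hD'c : Continuous fun q : ↥(Per X c) × ℝ × ℝ => D' q.1 q.2.1 q.2.2 := by
    refine Continuous.if_le hAc hBc (continuous_fst.comp continuous_snd) continuous_const ?_
    intro q hq
    simp only [hA, hB, hq]
    rw [g3 _ _ (by norm_num), c1_low (by norm_num), hm.zero _ _ (hfar _ _ _)]
  refine ⟨fun C s t => if h : C ∈ Per X c then D' ⟨C, h⟩ s t else C t, ?_, ?_, ?_, ?_, ?_⟩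
  · rw [continuousOn_iff_continuous_domRestrict]
    have e1 : Continuous fun q : ↥{q : (ℝ → X) × ℝ × ℝ | q.1 ∈ Per X c ∧
        q.2.1 ∈ Icc (0 : ℝ) 1} => ((⟨q.1.1, q.2.1⟩, q.1.2.1, q.1.2.2) : ↥(Per X c) × ℝ × ℝ) :=
      (Continuous.subtype_mk (continuous_fst.comp continuous_subtype_val) _).prodMk
        (continuous_snd.comp continuous_subtype_val)
    refine (hD'c.comp e1).congr ?_
    intro q
    change D' ⟨q.1.1, q.2.1⟩ q.1.2.1 q.1.2.2 =
      (if h : q.1.1 ∈ Per X c then D' ⟨q.1.1, h⟩ q.1.2.1 q.1.2.2 else q.1.1 q.1.2.2)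
    rw [dif_pos q.2.1]
  · intro C hC t
    rw [dif_pos hC]
    simp only [hD']
    rw [if_pos (by norm_num)]
    simp only [hA]
    rw [g2 _ _ (by norm_num)]
    rfl
  · intro C hC t
    rw [dif_pos hC, dif_pos hC]
    simp only [hD']
    rw [if_neg (by norm_num), if_neg (by norm_num)]
    simp only [hB]
    rw [c1_high (by norm_num), hm.one _ _ (hfar _ _ _), hm.one _ _ (hfar _ _ _)]
  · intro C hC s _ t
    rw [dif_pos hC, dif_pos hC]
    simp only [hD', hA, hB]
    split_ifs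
    · exact (H ⟨C, hC⟩ (2 * s)).2.2 t
    · rw [(Ck ⟨C, hC⟩).2.2 t]
  · intro C hC s _ t
    have hC' : (fun u => C (-u)) ∈ Per X c := rv_mem hC
    rw [dif_pos hC, dif_pos hC']
    simp only [hD', hA, hB]
    split_ifs
    · have := g4 ⟨C, hC⟩ (2 * s)
      exact congrFun this t
    · have h1 := hCkr ⟨C, hC⟩
      have h2 : (Ck ⟨fun u => C (-u), hC'⟩).1 = rv (Ck ⟨C, hC⟩).1 := h1
      rw [h2]
      unfold rv
      rw [neg_zero]

end Pool.Agent.L7h61.CL
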