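import Pool.Agent.Y489.GE.Stm
import Pool.Agent.Y50.GE.Om

/-!
# Contraction of free loops in the absence of short closed geodesics (helper61)

`OmF c`: Moore loops of length at most `c` with arbitrary base point. If the polygons can be
contracted, then so can every family of loops, jointly continuously, through loops.
-/

set_option autoImplicit false

open Set Topology

noncomputable section

namespace Pool.Agent.L7h61.CL

open Pool.Agent.Y489.GE Pool.Agent.Y50.GE

variable {X : Type} [MetricSpace X]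

/-- free Moore loops of length at most `c` -/
def OmF (X : Type) [MetricSpace X] (c : ℝ) : Set (ℝ → X) := {γ | γ ∈ Om (γ 0) c}

/-- contraction of families of loops -/
def FillC (X : Type) [MetricSpace X] (c : ℝ) : Prop :=
  ∀ (Z : Type) [TopologicalSpace Z] (F : Z → ℝ → X), Continuous F → (∀ z, F z ∈ OmF X c) →
    ∃ D : Z → ℝ → ℝ → X, Continuous (fun q : Z × ℝ × ℝ => D q.1 q.2.1 q.2.2) ∧
      (∀ z t, D z 0 t = F z t) ∧ (∀ z t, D z 1 t = D z 1 0) ∧ (∀ z s, D z s c = D z s 0) ∧
      ∀ z, (∀ t, F z t = F z 0) → ∀ s t, D z s t = F z 0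

theorem cont_iff_pi {Z : Type} [TopologicalSpace Z] {F : Z → ℝ → X} (hF : Continuous F) (t : ℝ) :
    Continuous fun z => F z t := (continuous_apply t).comp hF

/-- the filling -/
theorem fillC_of_polC {r : ℝ} {m : X → X → ℝ → X} (hm : GMap X r m) {c : ℝ} (hc : 0 < c) (N : ℕ)
    [NeZero N] (hcr : c / N ≤ r) (hP : PolC X N (c / N)) : FillC X c := by
  have hN : (0 : ℝ) < N := by
    have : 0 < N := Nat.pos_of_ne_zero (NeZero.ne N)
    exact_mod_cast this
  obtain ⟨δ, hδdef⟩ : ∃ δ, δ = c / N := ⟨_, rfl⟩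
  rw [← hδdef] at hcr hP
  have hδ : 0 < δ := by rw [hδdef]; positivity
  have hNδ : N * δ = c := by rw [hδdef]; field_simp
  obtain ⟨cc, H, h1, h2, h3, h4, h5⟩ := hP
  intro Z _ F hF hFm
  have hsm : ∀ z, samp N δ (F z) ∈ Polp X N δ (F z 0) := fun z => samp_mem hδ.le hNδ (hFm z)
  have hFL : ∀ z s t, dist (F z s) (F z t) ≤ |s - t| := fun z => (hFm z).1
  set cl01 : ℝ → ℝ := fun s => max 0 (min s 1) with hcl
  have hclm : ∀ s : ℝ, cl01 s ∈ Icc (0 : ℝ) 1 := fun s =>
    ⟨le_max_left _ _, max_le zero_le_one (min_le_right _ _)⟩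
  have hclc : Continuous cl01 := by
    rw [hcl]
    fun_prop
  -- the two stages
  set A : Z → ℝ → ℝ → X := fun z s => k1 m δ (F z) (cl01 (2 * s)) with hA
  set B : Z → ℝ → ℝ → X := fun z s => pol m N δ (H ⟨samp N δ (F z), (hsm z).1⟩ (2 * s - 1)) with hB
  have hAc : Continuous fun q : Z × ℝ => A q.1 q.2 :=
    k1_cont hm hδ hcr (F := fun q : Z × ℝ => F q.1) (u := fun q => cl01 (2 * q.2))
      (hF.comp continuous_fst) (fun q => hFL q.1) (hclc.comp (continuous_const.mul continuous_snd))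
      (fun q => hclm _)
  have hBc : Continuous fun q : Z × ℝ => B q.1 q.2 := by
    refine pol_cont hm hδ hcr
      (F := fun q : Z × ℝ => H ⟨samp N δ (F q.1), (hsm q.1).1⟩ (2 * q.2 - 1)) (κ := fun _ => δ)
      ?_ (fun q => h2 _ _) continuous_const (fun _ => hδ)
    have c1 : Continuous fun q : Z × ℝ =>
        ((⟨samp N δ (F q.1), (hsm q.1).1⟩ : ↥(Pol X N δ)), 2 * q.2 - 1) := by
      refine Continuous.prodMk ?_ (by fun_prop)
      exact Continuous.subtype_mk (samp_cont (hF.comp continuous_fst)) _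
    exact h1.comp c1
  have hAL : ∀ z s t t', dist (A z s t) (A z s t') ≤ |t - t'| := fun z s t t' =>
    k1_lip hm hδ hcr (hFL z) (hclm _) t t'
  have hpm : ∀ x : ZMod N → X, x ∈ Pol X N δ → pol m N δ x ∈ Om (x 0) c := fun x hx =>
    pol_mem hm hcr (p := x 0) ⟨hx, rfl⟩ le_rfl hδ hNδ.le
  have hBL : ∀ z s t t', dist (B z s t) (B z s t') ≤ |t - t'| := fun z s t t' =>
    (hpm _ (h2 _ _)).1 t t'
  have hAJ : Continuous fun q : Z × ℝ × ℝ => A q.1 q.2.1 q.2.2 :=
    eval_cont (F := fun q : Z × ℝ × ℝ => A q.1 q.2.1) (τ := fun q => q.2.2)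
      (hAc.comp (continuous_fst.prodMk (continuous_fst.comp continuous_snd)))
      (fun q => hAL _ _) (continuous_snd.comp continuous_snd)
  have hBJ : Continuous fun q : Z × ℝ × ℝ => B q.1 q.2.1 q.2.2 :=
    eval_cont (F := fun q : Z × ℝ × ℝ => B q.1 q.2.1) (τ := fun q => q.2.2)
      (hBc.comp (continuous_fst.prodMk (continuous_fst.comp continuous_snd)))
      (fun q => hBL _ _) (continuous_snd.comp continuous_snd)
  have hone : ∀ z, A z (1 / 2) = B z (1 / 2) := by
    intro z
    have e1 : cl01 (2 * (1 / 2)) = 1 := by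
      simp only [hcl]
      norm_num
    simp only [hA, hB, e1]
    rw [k1_one hm hδ hcr hNδ (hFm z), h3 _ _ (by norm_num)]
  refine ⟨fun z s t => if s ≤ 1 / 2 then A z s t else B z s t, ?_, ?_, ?_, ?_, ?_⟩
  · refine Continuous.if_le hAJ hBJ (continuous_fst.comp continuous_snd) continuous_const ?_
    intro q hq
    rw [hq, hone]
  · intro z t
    have e1 : cl01 (2 * 0) = 0 := by
      simp only [hcl]
      norm_num
    dsimp only
    rw [if_pos (by norm_num)]
    simp only [hA, e1]
    exact k1_zero hm hδ hcr (hFL z) ⟨le_rfl, zero_le_one⟩ t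
  · intro z t
    dsimp only
    rw [if_neg (by norm_num), if_neg (by norm_num)]
    simp only [hB]
    rw [h4 _ _ (by norm_num)]
    have hpc : ∀ τ, pol m N δ (fun _ => cc ⟨samp N δ (F z), (hsm z).1⟩) τ =
        cc ⟨samp N δ (F z), (hsm z).1⟩ := by
      intro τ
      unfold pol bar
      exact hm.self (hδ.le.trans hcr) _ ⟨Int.fract_nonneg _, (Int.fract_lt_one _).le⟩
    rw [hpc, hpc]
  · intro z s
    dsimp only
    split_ifs with hs
    · have hk := k1_om hm hδ hcr hNδ (hFm z) (hclm (2 * s))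
      simp only [hA]
      rw [hk.2.2 c le_rfl, hk.2.1 0 le_rfl]
    · have hk := hpm _ (h2 ⟨samp N δ (F z), (hsm z).1⟩ (2 * s - 1))
      simp only [hB]
      rw [hk.2.2 c le_rfl, hk.2.1 0 le_rfl]
  · intro z hz s t
    have hsz : samp N δ (F z) = fun _ => F z 0 := by
      funext i
      exact hz _
    dsimp only
    split_ifs with hs
    · have e0 : F z = fun _ => F z 0 := funext hz
      simp only [hA]
      rw [e0]
      unfold k1
      refine hm.self (hδ.le.trans hcr) _ ?_
      have h1 : t ≤ max ((⌊t / δ⌋ + cl01 (2 * s)) * δ) t := le_max_right _ _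
      have h2 : (⌊t / δ⌋ : ℝ) * δ ≤ t := by rw [← le_div_iff₀ hδ]; exact Int.floor_le _
      exact ⟨div_nonneg (by linarith) (by linarith), div_le_one_of_le₀ (by linarith)
        (by linarith)⟩
    · simp only [hB]
      have h6 : (⟨samp N δ (F z), (hsm z).1⟩ : ↥(Pol X N δ)) ∈
          {x : ↥(Pol X N δ) | ∀ i, x.1 i = x.1 0} := by
        intro i
        change samp N δ (F z) i = samp N δ (F z) 0
        rw [hsz]
      rw [h5 _ h6]
      change pol m N δ (samp N δ (F z)) t = F z 0
      rw [hsz]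
      unfold pol bar
      exact hm.self (hδ.le.trans hcr) _ ⟨Int.fract_nonneg _, (Int.fract_lt_one _).le⟩

/-- no closed geodesics of length at most `c` -/
theorem fillC_of_no (h_CG : S_CG) (h_BK : S_BK) [CompactSpace X] {r : ℝ} {m : X → X → ℝ → X}
    (hm : GMap X r m) (hr : 0 < r) {c : ℝ} (hc : 0 < c) (hno : ¬ ClosedGeod X c) : FillC X c := by
  obtain ⟨N, hN⟩ := exists_nat_gt (c / r)
  have hN0 : (0 : ℝ) < N := lt_trans (by positivity) hN
  have hN' : N ≠ 0 := by
    rintro rfl
    simp at hN0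
  have : NeZero N := ⟨hN'⟩
  have haN : 0 < c / N := by positivity
  have hN1 : c / N ≤ r := by
    rw [div_lt_iff₀ hr] at hN
    rw [div_le_iff₀ hN0]
    linarith
  refine fillC_of_polC hm hc N hN1 (h_BK X r m hm N (c / N) haN hN1 ?_)
  intro x hx hxe he
  apply hno
  have hpos : 0 < En N x := lt_of_lt_of_le (by positivity) hxe
  have := h_CG X r m hm N (c / N) hN1 x hx he hpos
  rwa [mul_div_cancel₀ _ hN0.ne'] at this

end Pool.Agent.L7h61.CL
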