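import Pool.Agent.L7h61.CL.Fill

/-!
# Gluing of homotopies with short tracks (helper61)
-/

set_option autoImplicit false

open Set Topology

noncomputable section

namespace Pool.Agent.L7h61.CL

open Pool.Agent.Y489.GE Pool.Agent.Y50.GE

variable {X : Type} [MetricSpace X]

/-- a curve of speed at most one which is equal to `x` up to time `0` and to `y` from time `T` on -/
def Trk {X : Type} [MetricSpace X] (γ : ℝ → X) (x y : X) (T : ℝ) : Prop :=
  (∀ s t, dist (γ s) (γ t) ≤ |s - t|) ∧ (∀ t, t ≤ 0 → γ t = x) ∧ ∀ t, T ≤ t → γ t = y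

/-- first `α`, then `β` backwards -/
def jn (α β : ℝ → X) (T T' t : ℝ) : X := if t ≤ T then α t else β (T + T' - t)

theorem jn_left {α β : ℝ → X} {T T' t : ℝ} (h : t ≤ T) : jn α β T T' t = α t := if_pos h

theorem jn_right {α β : ℝ → X} {x y : X} {T T' t : ℝ} (hα : Trk α x y T) (hβ : Trk β x y T')
    (h : T ≤ t) : jn α β T T' t = β (T + T' - t) := by
  unfold jn
  split_ifs with h1
  · have h2 : t = T := le_antisymm h1 h
    rw [h2, hα.2.2 T le_rfl, hβ.2.2 _ (by linarith)]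
  · rfl

theorem jn_lip {α β : ℝ → X} {x y : X} {T T' : ℝ} (hα : Trk α x y T) (hβ : Trk β x y T')
    (s t : ℝ) : dist (jn α β T T' s) (jn α β T T' t) ≤ |s - t| := by
  have key : ∀ s t : ℝ, s ≤ t → dist (jn α β T T' s) (jn α β T T' t) ≤ t - s := by
    intro s t hst
    rcases le_total t T with h1 | h1
    · rw [jn_left (hst.trans h1), jn_left h1]
      refine (hα.1 _ _).trans (le_of_eq ?_)
      rw [abs_sub_comm, abs_of_nonneg (by linarith)]
    · rcases le_total s T with h2 | h2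
      · rw [jn_left h2, jn_right hα hβ h1]
        have e1 : dist (α s) (α T) ≤ T - s := by
          refine (hα.1 _ _).trans (le_of_eq ?_)
          rw [abs_sub_comm, abs_of_nonneg (by linarith)]
        have e2 : dist (β T') (β (T + T' - t)) ≤ t - T := by
          refine (hβ.1 _ _).trans (le_of_eq ?_)
          rw [abs_of_nonneg (by linarith)]
          ring
        have e3 : α T = β T' := by rw [hα.2.2 T le_rfl, hβ.2.2 T' le_rfl]
        calc dist (α s) (β (T + T' - t)) ≤ dist (α s) (α T) + dist (α T) (β (T + T' - t)) :=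
              dist_triangle _ _ _
          _ ≤ (T - s) + (t - T) := by rw [e3] at e1 ⊢; exact add_le_add e1 e2
          _ = t - s := by ring
      · rw [jn_right hα hβ h2, jn_right hα hβ h1]
        refine (hβ.1 _ _).trans (le_of_eq ?_)
        rw [abs_of_nonneg (by linarith)]
        ring
  rcases le_total s t with h | h
  · rw [abs_sub_comm, abs_of_nonneg (by linarith)]
    exact key s t h
  · rw [dist_comm, abs_of_nonneg (by linarith)]
    exact key t s h

theorem jn_mem {α β : ℝ → X} {x y : X} {T T' c : ℝ} (hα : Trk α x y T) (hβ : Trk β x y T')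
    (h0 : 0 ≤ T) (h0' : 0 ≤ T') (hc : T + T' ≤ c) :
    jn α β T T' ∈ OmF X c ∧ jn α β T T' 0 = x ∧ ∀ t, T + T' ≤ t → jn α β T T' t = x := by
  have e0 : jn α β T T' 0 = x := by rw [jn_left h0, hα.2.1 0 le_rfl]
  have e1 : ∀ t, T + T' ≤ t → jn α β T T' t = x := by
    intro t ht
    rw [jn_right hα hβ (by linarith), hβ.2.1 _ (by linarith)]
  refine ⟨⟨jn_lip hα hβ, fun t ht => ?_, fun t ht => ?_⟩, e0, e1⟩
  · rw [e0, jn_left (ht.trans h0), hα.2.1 t ht]
  · rw [e0, e1 t (hc.trans ht)]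

theorem jn_cont {Z : Type} [TopologicalSpace Z] {α β : Z → ℝ → X} {x y : Z → X} {T T' : Z → ℝ}
    (hα : Continuous α) (hβ : Continuous β) (hT : Continuous T) (hT' : Continuous T')
    (hα1 : ∀ z, Trk (α z) (x z) (y z) (T z)) (hβ1 : ∀ z, Trk (β z) (x z) (y z) (T' z)) :
    Continuous fun z => jn (α z) (β z) (T z) (T' z) := by
  rw [continuous_pi_iff]
  intro t
  unfold jn
  refine Continuous.if_le ((continuous_apply t).comp hα)
    (eval_cont hβ (fun z => (hβ1 z).1) ((hT.add hT').sub continuous_const)) continuous_const hT ?_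
  intro z hz
  rw [(hα1 z).2.2 t (le_of_eq hz.symm), (hβ1 z).2.2 _ (by linarith)]

/-- the clamp to the unit interval -/
def c1 (s : ℝ) : ℝ := max 0 (min s 1)

theorem c1_cont : Continuous c1 := by
  unfold c1
  fun_prop

theorem c1_low {s : ℝ} (h : s ≤ 0) : c1 s = 0 := by
  unfold c1
  rw [min_eq_left (by linarith), max_eq_left h]

theorem c1_high {s : ℝ} (h : 1 ≤ s) : c1 s = 1 := by
  unfold c1
  rw [min_eq_right h, max_eq_right zero_le_one]

theorem c1_of {s : ℝ} (h : s ∈ Icc (0 : ℝ) 1) : c1 s = s := by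
  unfold c1
  rw [min_eq_left h.2, max_eq_right h.1]

/-- the stage of the contraction -/
def sS (l σ : ℝ) : ℝ := c1 (8 * l * min σ (1 - σ))

/-- the position on the loop -/
def tS (l σ : ℝ) : ℝ := (1 - 2 * l) * σ + 2 * l * c1 (2 * σ - 1 / 2)

theorem sS_zero (σ : ℝ) : sS 0 σ = 0 := by
  unfold sS
  rw [mul_zero, zero_mul]
  exact c1_low le_rfl

theorem tS_zero (σ : ℝ) : tS 0 σ = σ := by
  unfold tS
  ring

theorem sS_left (l : ℝ) : sS l 0 = 0 := by
  unfold sS
  rw [min_eq_left (by norm_num), mul_zero]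
  exact c1_low le_rfl

theorem sS_right (l : ℝ) : sS l 1 = 0 := by
  unfold sS
  rw [sub_self, min_eq_right (by norm_num), mul_zero]
  exact c1_low le_rfl

theorem tS_left (l : ℝ) : tS l 0 = 0 := by
  unfold tS
  rw [c1_low (by norm_num)]
  ring

theorem tS_right (l : ℝ) : tS l 1 = 1 := by
  unfold tS
  rw [c1_high (by norm_num)]
  ring

theorem half_cases (σ : ℝ) : tS (1 / 2) σ = 0 ∨ sS (1 / 2) σ = 1 ∨ tS (1 / 2) σ = 1 := by
  unfold tS sS
  rcases le_or_gt σ (1 / 4) with h1 | h1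
  · left
    rw [c1_low (by linarith)]
    ring
  · rcases le_or_gt σ (3 / 4) with h2 | h2
    · right
      left
      refine c1_high ?_
      have : 1 / 4 ≤ min σ (1 - σ) := le_min h1.le (by linarith)
      linarith
    · right
      right
      rw [c1_high (by linarith)]
      ring

/-- the interpolation between two families of curves with the same ends -/
theorem interp {c : ℝ} (hC : FillC X c) (Z : Type) [TopologicalSpace Z] (l : Z → ℝ)
    (hl : Continuous l) (α β : Z → ℝ → X) (x y : Z → X) (T T' : Z → ℝ)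
    (hα : Continuous α) (hβ : Continuous β) (hT : Continuous T) (hT' : Continuous T')
    (hα1 : ∀ z, Trk (α z) (x z) (y z) (T z)) (hβ1 : ∀ z, Trk (β z) (x z) (y z) (T' z))
    (h0 : ∀ z, 0 ≤ T z) (h0' : ∀ z, 0 ≤ T' z) (hc : ∀ z, T z + T' z ≤ c)
    (hl01 : ∀ z, l z ∈ Icc (0 : ℝ) 1) :
    ∃ K : Z → ℝ → X, Continuous (fun q : Z × ℝ => K q.1 q.2) ∧
      (∀ z, l z = 0 → ∀ σ ∈ Icc (0 : ℝ) 1, K z σ = α z (T z * σ)) ∧
      (∀ z, l z = 1 → ∀ σ ∈ Icc (0 : ℝ) 1, K z σ = β z (T' z * σ)) ∧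
      (∀ z, K z 0 = x z) ∧ (∀ z, K z 1 = y z) ∧
      ∀ z, (∀ t, α z t = x z) → (∀ t, β z t = x z) → ∀ σ, K z σ = x z := by
  have hm := fun z => jn_mem (hα1 z) (hβ1 z) (h0 z) (h0' z) (hc z)
  obtain ⟨D, d1, d2, d3, d4, d5⟩ := hC Z (fun z => jn (α z) (β z) (T z) (T' z))
    (jn_cont hα hβ hT hT' hα1 hβ1) (fun z => (hm z).1)
  -- the total length used at the stage `μ`
  set cm : Z → ℝ → ℝ := fun z μ => (1 - 2 * μ) * (T z + T' z) + 2 * μ * c with hcm
  have hs : Continuous fun q : ℝ × ℝ => sS q.1 q.2 := by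
    unfold sS
    exact c1_cont.comp (by fun_prop)
  have ht : Continuous fun q : ℝ × ℝ => tS q.1 q.2 := by
    unfold tS
    exact ((continuous_const.sub (continuous_const.mul continuous_fst)).mul continuous_snd).add
      ((continuous_const.mul continuous_fst).mul (c1_cont.comp (by fun_prop)))
  set K1 : Z → ℝ → X := fun z σ => D z (sS (l z) σ) (T z * tS (l z) σ) with hK1
  set K2 : Z → ℝ → X := fun z σ => D z (sS (1 - l z) σ)
    (cm z (1 - l z) - (cm z (1 - l z) - T z) * tS (1 - l z) σ) with hK2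
  have hK1c : Continuous fun q : Z × ℝ => K1 q.1 q.2 := by
    have e1 : Continuous fun q : Z × ℝ => ((l q.1, q.2) : ℝ × ℝ) :=
      (hl.comp continuous_fst).prodMk continuous_snd
    exact d1.comp (continuous_fst.prodMk ((hs.comp e1).prodMk
      ((hT.comp continuous_fst).mul (ht.comp e1))))
  have hK2c : Continuous fun q : Z × ℝ => K2 q.1 q.2 := by
    have e1 : Continuous fun q : Z × ℝ => ((1 - l q.1, q.2) : ℝ × ℝ) :=
      (continuous_const.sub (hl.comp continuous_fst)).prodMk continuous_snd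
    have e2 : Continuous fun q : Z × ℝ => cm q.1 (1 - l q.1) := by
      simp only [hcm]
      have e3 : Continuous fun q : Z × ℝ => l q.1 := hl.comp continuous_fst
      have e4 : Continuous fun q : Z × ℝ => T q.1 := hT.comp continuous_fst
      have e5 : Continuous fun q : Z × ℝ => T' q.1 := hT'.comp continuous_fst
      fun_prop
    exact d1.comp (continuous_fst.prodMk ((hs.comp e1).prodMk
      (e2.sub ((e2.sub (hT.comp continuous_fst)).mul (ht.comp e1)))))
  have hmid : ∀ z, l z = 1 / 2 → ∀ σ, K1 z σ = K2 z σ := by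
    intro z hz σ
    have e1 : cm z (1 - l z) = c := by
      simp only [hcm]
      rw [hz]
      ring
    simp only [hK1, hK2]
    rw [e1, hz, show (1 : ℝ) - 1 / 2 = 1 / 2 by norm_num]
    rcases half_cases σ with h | h | h
    · rw [h, mul_zero, mul_zero, sub_zero, d4]
    · rw [h, d3 z (T z * _), d3 z (c - _)]
    · rw [h, mul_one, mul_one, sub_sub_cancel]
  have hcm1 : ∀ z, l z ∈ Icc (0 : ℝ) 1 → ¬ l z ≤ 1 / 2 → T z + T' z ≤ cm z (1 - l z) := by
    intro z hz hz2
    simp only [hcm]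
    have h1 := hc z
    have h2 : 0 ≤ 1 - l z := by linarith [hz.2]
    nlinarith
  refine ⟨fun z σ => if l z ≤ 1 / 2 then K1 z σ else K2 z σ, ?_, ?_, ?_, ?_, ?_, ?_⟩
  · exact Continuous.if_le hK1c hK2c (hl.comp continuous_fst) continuous_const
      (fun q hq => hmid q.1 hq q.2)
  · intro z hz σ hσ
    dsimp only
    rw [if_pos (by rw [hz]; norm_num)]
    simp only [hK1]
    rw [hz, sS_zero, tS_zero, d2, jn_left]
    have := h0 z
    nlinarith [hσ.2]
  · intro z hz σ hσ
    dsimp only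
    rw [if_neg (by rw [hz]; norm_num)]
    simp only [hK2, hcm]
    rw [hz, sub_self, sS_zero, tS_zero, d2]
    have h1 := h0' z
    rw [jn_right (hα1 z) (hβ1 z) (by nlinarith [hσ.2])]
    congr 1
    ring
  · intro z
    dsimp only
    split_ifs with h
    · simp only [hK1]
      rw [sS_left, tS_left, mul_zero, d2]
      exact (hm z).2.1
    · simp only [hK2]
      rw [sS_left, tS_left, mul_zero, sub_zero, d2]
      exact (hm z).2.2 _ (hcm1 z (hl01 z) h)
  · intro z
    dsimp only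
    split_ifs with h
    · simp only [hK1]
      rw [sS_right, tS_right, mul_one, d2, jn_left le_rfl]
      exact (hα1 z).2.2 _ le_rfl
    · simp only [hK2]
      rw [sS_right, tS_right, mul_one, d2, sub_sub_cancel, jn_left le_rfl]
      exact (hα1 z).2.2 _ le_rfl
  · intro z ha hb σ
    have e0 : jn (α z) (β z) (T z) (T' z) 0 = x z := (hm z).2.1
    have e1 : ∀ t, jn (α z) (β z) (T z) (T' z) t = jn (α z) (β z) (T z) (T' z) 0 := by
      intro t
      rw [e0]
      unfold jn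
      split_ifs
      · exact ha _
      · exact hb _
    have e2 := d5 z e1
    dsimp only
    split_ifs with h
    · simp only [hK1]
      rw [e2, e0]
    · simp only [hK2]
      rw [e2, e0]

/-- gluing of homotopies, with a separating function -/
theorem glueU {c : ℝ} (hC : FillC X c) (W : Type) [TopologicalSpace W] (u : W → ℝ)
    (hu : Continuous u) (α β : W → ℝ → X) (f g : W → X) (T T' : W → ℝ)
    (hα : ContinuousOn α {w | u w ≤ 2 / 3}) (hβ : ContinuousOn β {w | 1 / 3 ≤ u w})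
    (hT : ContinuousOn T {w | u w ≤ 2 / 3}) (hT' : ContinuousOn T' {w | 1 / 3 ≤ u w})
    (hα1 : ∀ w, u w ≤ 2 / 3 → Trk (α w) (f w) (g w) (T w) ∧ 0 ≤ T w)
    (hβ1 : ∀ w, 1 / 3 ≤ u w → Trk (β w) (f w) (g w) (T' w) ∧ 0 ≤ T' w)
    (hc : ∀ w, u w ≤ 2 / 3 → 1 / 3 ≤ u w → T w + T' w ≤ c) :
    ∃ H : W → ℝ → X, ContinuousOn (fun q : W × ℝ => H q.1 q.2) {q | q.2 ∈ Icc (0 : ℝ) 1} ∧
      (∀ w, H w 0 = f w) ∧ (∀ w, H w 1 = g w) ∧
      ∀ w, (u w ≤ 2 / 3 → ∀ t, α w t = f w) → (1 / 3 ≤ u w → ∀ t, β w t = f w) →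
        ∀ σ, H w σ = f w := by
  classical
  obtain ⟨K, k1, k2, k3, k4, k5, k6⟩ := interp hC ↥{w : W | 1 / 3 ≤ u w ∧ u w ≤ 2 / 3}
    (fun z => 3 * u z.1 - 1)
    ((continuous_const.mul (hu.comp continuous_subtype_val)).sub continuous_const)
    (fun z => α z.1) (fun z => β z.1) (fun z => f z.1) (fun z => g z.1) (fun z => T z.1)
    (fun z => T' z.1)
    (hα.comp_continuous continuous_subtype_val fun z => z.2.2)
    (hβ.comp_continuous continuous_subtype_val fun z => z.2.1)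
    (hT.comp_continuous continuous_subtype_val fun z => z.2.2)
    (hT'.comp_continuous continuous_subtype_val fun z => z.2.1)
    (fun z => (hα1 _ z.2.2).1) (fun z => (hβ1 _ z.2.1).1) (fun z => (hα1 _ z.2.2).2)
    (fun z => (hβ1 _ z.2.1).2) (fun z => hc _ z.2.2 z.2.1)
    (fun z => ⟨by linarith [z.2.1], by linarith [z.2.2]⟩)
  set H : W → ℝ → X := fun w σ => if h : 1 / 3 ≤ u w ∧ u w ≤ 2 / 3 then K ⟨w, h⟩ σ else
    if u w ≤ 1 / 3 then α w (T w * σ) else β w (T' w * σ) with hH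
  have hmid : ∀ w (h : 1 / 3 ≤ u w ∧ u w ≤ 2 / 3) σ, H w σ = K ⟨w, h⟩ σ := fun w h σ => by
    simp only [hH]
    rw [dif_pos h]
  have hlow : ∀ w, u w ≤ 1 / 3 → ∀ σ ∈ Icc (0 : ℝ) 1, H w σ = α w (T w * σ) := by
    intro w hw σ hσ
    rcases hw.lt_or_eq with h | h
    · simp only [hH]
      rw [dif_neg (fun h' => by linarith [h'.1]), if_pos hw]
    · rw [hmid w ⟨h.ge, by linarith⟩]
      exact k2 _ (by dsimp only; linarith) σ hσ
  have hhigh : ∀ w, 2 / 3 ≤ u w → ∀ σ ∈ Icc (0 : ℝ) 1, H w σ = β w (T' w * σ) := by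
    intro w hw σ hσ
    rcases hw.lt_or_eq with h | h
    · simp only [hH]
      rw [dif_neg (fun h' => by linarith [h'.2]), if_neg (by linarith)]
    · rw [hmid w ⟨by linarith, h.ge⟩]
      exact k3 _ (by dsimp only; linarith) σ hσ
  have huc : Continuous fun q : W × ℝ => u q.1 := hu.comp continuous_fst
  have hI : IsClosed {q : W × ℝ | q.2 ∈ Icc (0 : ℝ) 1} := isClosed_Icc.preimage continuous_snd
  refine ⟨H, ?_, ?_, ?_, ?_⟩
  · have p1 : ContinuousOn (fun q : W × ℝ => H q.1 q.2)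
        ({q | q.2 ∈ Icc (0 : ℝ) 1} ∩ {q | u q.1 ≤ 1 / 3}) := by
      have e1 : ContinuousOn (fun q : W × ℝ => α q.1 (T q.1 * q.2))
          ({q | q.2 ∈ Icc (0 : ℝ) 1} ∩ {q | u q.1 ≤ 1 / 3}) := by
        intro q hq
        have hmap : MapsTo (fun q : W × ℝ => q.1)
            ({q | q.2 ∈ Icc (0 : ℝ) 1} ∩ {q | u q.1 ≤ 1 / 3}) {w | u w ≤ 2 / 3} := by
          intro q hq
          have : u q.1 ≤ 1 / 3 := hq.2
          change u q.1 ≤ 2 / 3
          linarith
        refine eval_within hq (F := fun q : W × ℝ => α q.1) (τ := fun q => T q.1 * q.2)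
          ((hα.comp continuousOn_fst hmap) q hq) (fun z hz => (hα1 _ (hmap hz)).1.1) ?_
        exact ((hT.comp continuousOn_fst hmap).mul continuousOn_snd) q hq
      exact e1.congr fun q hq => hlow q.1 hq.2 q.2 hq.1
    have p2 : ContinuousOn (fun q : W × ℝ => H q.1 q.2)
        ({q | q.2 ∈ Icc (0 : ℝ) 1} ∩ {q | 1 / 3 ≤ u q.1 ∧ u q.1 ≤ 2 / 3}) := by
      refine ContinuousOn.mono (s := {q | 1 / 3 ≤ u q.1 ∧ u q.1 ≤ 2 / 3}) ?_ inter_subset_right
      rw [continuousOn_iff_continuous_domRestrict]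
      have e1 : Continuous fun q : ↥{q : W × ℝ | 1 / 3 ≤ u q.1 ∧ u q.1 ≤ 2 / 3} =>
          ((⟨q.1.1, q.2⟩ : ↥{w : W | 1 / 3 ≤ u w ∧ u w ≤ 2 / 3}), q.1.2) :=
        (Continuous.subtype_mk (continuous_fst.comp continuous_subtype_val) _).prodMk
          (continuous_snd.comp continuous_subtype_val)
      refine (k1.comp e1).congr ?_
      intro q
      exact (hmid q.1.1 q.2 q.1.2).symm
    have p3 : ContinuousOn (fun q : W × ℝ => H q.1 q.2)
        ({q | q.2 ∈ Icc (0 : ℝ) 1} ∩ {q | 2 / 3 ≤ u q.1}) := by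
      have e1 : ContinuousOn (fun q : W × ℝ => β q.1 (T' q.1 * q.2))
          ({q | q.2 ∈ Icc (0 : ℝ) 1} ∩ {q | 2 / 3 ≤ u q.1}) := by
        intro q hq
        have hmap : MapsTo (fun q : W × ℝ => q.1)
            ({q | q.2 ∈ Icc (0 : ℝ) 1} ∩ {q | 2 / 3 ≤ u q.1}) {w | 1 / 3 ≤ u w} := by
          intro q hq
          have : 2 / 3 ≤ u q.1 := hq.2
          change 1 / 3 ≤ u q.1
          linarith
        refine eval_within hq (F := fun q : W × ℝ => β q.1) (τ := fun q => T' q.1 * q.2)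
          ((hβ.comp continuousOn_fst hmap) q hq) (fun z hz => (hβ1 _ (hmap hz)).1.1) ?_
        exact ((hT'.comp continuousOn_fst hmap).mul continuousOn_snd) q hq
      exact e1.congr fun q hq => hhigh q.1 hq.2 q.2 hq.1
    have c1' : IsClosed ({q : W × ℝ | q.2 ∈ Icc (0 : ℝ) 1} ∩ {q | u q.1 ≤ 1 / 3}) :=
      hI.inter (isClosed_le huc continuous_const)
    have c2' : IsClosed ({q : W × ℝ | q.2 ∈ Icc (0 : ℝ) 1} ∩ {q | 1 / 3 ≤ u q.1 ∧ u q.1 ≤ 2 / 3}) :=
      hI.inter ((isClosed_le continuous_const huc).inter (isClosed_le huc continuous_const))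
    have c3' : IsClosed ({q : W × ℝ | q.2 ∈ Icc (0 : ℝ) 1} ∩ {q | 2 / 3 ≤ u q.1}) :=
      hI.inter (isClosed_le continuous_const huc)
    refine ((p1.union_of_isClosed p2 c1' c2').union_of_isClosed p3 (c1'.union c2') c3').mono ?_
    intro q hq
    rcases le_total (u q.1) (1 / 3) with h1 | h1
    · exact Or.inl (Or.inl ⟨hq, h1⟩)
    · rcases le_total (u q.1) (2 / 3) with h2 | h2
      · exact Or.inl (Or.inr ⟨hq, h1, h2⟩)
      · exact Or.inr ⟨hq, h2⟩
  · intro w
    rcases le_total (u w) (1 / 3) with h1 | h1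
    · rw [hlow w h1 0 ⟨le_rfl, zero_le_one⟩, mul_zero]
      exact (hα1 w (by linarith)).1.2.1 0 le_rfl
    · rcases le_total (u w) (2 / 3) with h2 | h2
      · rw [hmid w ⟨h1, h2⟩]
        exact k4 _
      · rw [hhigh w h2 0 ⟨le_rfl, zero_le_one⟩, mul_zero]
        exact (hβ1 w (by linarith)).1.2.1 0 le_rfl
  · intro w
    rcases le_total (u w) (1 / 3) with h1 | h1
    · rw [hlow w h1 1 ⟨zero_le_one, le_rfl⟩, mul_one]
      exact (hα1 w (by linarith)).1.2.2 _ le_rfl
    · rcases le_total (u w) (2 / 3) with h2 | h2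
      · rw [hmid w ⟨h1, h2⟩]
        exact k5 _
      · rw [hhigh w h2 1 ⟨zero_le_one, le_rfl⟩, mul_one]
        exact (hβ1 w (by linarith)).1.2.2 _ le_rfl
  · intro w ha hb σ
    by_cases h : 1 / 3 ≤ u w ∧ u w ≤ 2 / 3
    · rw [hmid w h]
      exact k6 ⟨w, h⟩ (ha h.2) (hb h.1) σ
    · simp only [hH]
      rw [dif_neg h]
      split_ifs with h1
      · exact ha (by linarith) _
      · exact hb (by linarith) _

end Pool.Agent.L7h61.CL
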