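import Pool.Agent.L7h61.CL.Stm

/-!
# Project TM: PART B (helper61)
-/

set_option autoImplicit false

open Set Topology

noncomputable section

namespace Pool.Agent.L7h61.CL

open Pool.Agent.Y489.GE Pool.Agent.Y50.GE

/-- periodic extension -/
def pz {X : Type} (c : ℝ) (γ : ℝ → X) (t : ℝ) : X := γ (t - ⌊t / c⌋ * c)

theorem pz_eq {X : Type} {c : ℝ} (hc : 0 < c) {γ : ℝ → X} (h : γ c = γ 0) (n : ℤ) {t : ℝ}
    (ht : t ∈ Icc ((n : ℝ) * c) ((n + 1) * c)) : pz c γ t = γ (t - n * c) := by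
  unfold pz
  rcases ht.2.lt_or_eq with hlt | heq
  · have h1 : ⌊t / c⌋ = n := by
      rw [Int.floor_eq_iff]
      exact ⟨by rw [le_div_iff₀ hc]; exact ht.1, by rw [div_lt_iff₀ hc]; exact hlt⟩
    rw [h1]
  · have h1 : ⌊t / c⌋ = n + 1 := by
      rw [heq, mul_div_cancel_right₀ _ hc.ne']
      have : ((n : ℝ) + 1) = ((n + 1 : ℤ) : ℝ) := by push_cast; ring
      rw [this, Int.floor_intCast]
    rw [h1, heq]
    have e1 : ((n : ℝ) + 1) * c - ((n + 1 : ℤ) : ℝ) * c = 0 := by push_cast; ring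
    have e2 : ((n : ℝ) + 1) * c - n * c = c := by ring
    rw [e1, e2, h]

theorem exists_per {c : ℝ} (hc : 0 < c) (t : ℝ) : ∃ n : ℤ, t ∈ Icc ((n : ℝ) * c) ((n + 1) * c) := by
  refine ⟨⌊t / c⌋, ?_, ?_⟩
  · rw [← le_div_iff₀ hc]; exact Int.floor_le _
  · rw [← div_le_iff₀ hc]; exact (Int.lt_floor_add_one _).le

theorem pz_mem {X : Type} [MetricSpace X] {c : ℝ} (hc : 0 < c) {γ : ℝ → X} (h : γ ∈ OmF X c) :
    pz c γ ∈ Per X c := by
  have hcl : γ c = γ 0 := h.2.2 c le_rfl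
  refine ⟨fun s t => ?_, fun t => ?_⟩
  · have := glue (pz c γ) (L := 1) hc (by
      intro n s hs t ht
      rw [pz_eq hc hcl n hs, pz_eq hc hcl n ht, one_mul]
      refine (h.1 _ _).trans (le_of_eq ?_)
      congr 1
      ring) s t
    rwa [one_mul] at this
  · unfold pz
    have e1 : (t + c) / c = t / c + ((1 : ℤ) : ℝ) := by
      push_cast
      field_simp
    rw [e1, Int.floor_add_intCast]
    congr 1
    push_cast
    ring

theorem pz_rev {X : Type} {c : ℝ} (hc : 0 < c) {γ γ' : ℝ → X} (h : γ c = γ 0)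
    (h' : ∀ t ∈ Icc (0 : ℝ) c, γ' t = γ (c - t)) : pz c γ' = fun u => pz c γ (-u) := by
  funext t
  obtain ⟨n, hn⟩ := exists_per hc t
  have hcl : γ' c = γ' 0 := by
    rw [h' c ⟨hc.le, le_rfl⟩, h' 0 ⟨le_rfl, hc.le⟩, sub_self, sub_zero, h]
  have hn' : -t ∈ Icc (((-n - 1 : ℤ) : ℝ) * c) ((((-n - 1 : ℤ) : ℝ) + 1) * c) := by
    push_cast
    constructor
    · nlinarith [hn.2]
    · nlinarith [hn.1]
  rw [pz_eq hc hcl n hn, pz_eq hc h _ hn', h' _ ⟨by linarith [hn.1], by nlinarith [hn.2]⟩]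
  congr 1
  push_cast
  ring

theorem jn_swap {X : Type} [MetricSpace X] {α β : ℝ → X} {x y : X} {L : ℝ} (hα : Trk α x y L)
    (hβ : Trk β x y L) (t : ℝ) : jn β α L L t = jn α β L L (2 * L - t) := by
  rcases le_total t L with h | h
  · rw [jn_left h, jn_right hα hβ (by linarith)]
    congr 1
    ring
  · rw [jn_right hβ hα h, jn_left (by linarith : 2 * L - t ≤ L)]
    congr 1
    ring

theorem sS_mem (l σ : ℝ) : sS l σ ∈ Icc (0 : ℝ) 1 :=
  ⟨le_max_left _ _, max_le zero_le_one (min_le_right _ _)⟩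

theorem c1_mem (s : ℝ) : c1 s ∈ Icc (0 : ℝ) 1 :=
  ⟨le_max_left _ _, max_le zero_le_one (min_le_right _ _)⟩

section

variable {X : Type} [MetricSpace X] {L : ℝ} (hL : 0 < L) {D : (ℝ → X) → ℝ → ℝ → X}
  (hD : DSym X (2 * L) D)

/-- half of the way from `α` to `β` -/
def K0 {X : Type} (L : ℝ) (D : (ℝ → X) → ℝ → ℝ → X) (α β : ℝ → X) (μ σ : ℝ) : X :=
  D (pz (2 * L) (jn α β L L)) (sS μ σ) (L * tS μ σ)

theorem lp_mem {α β : ℝ → X} {x y : X} (hL : 0 < L) (hα : Trk α x y L) (hβ : Trk β x y L) :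
    pz (2 * L) (jn α β L L) ∈ Per X (2 * L) :=
  pz_mem (by linarith) (jn_mem hα hβ hL.le hL.le (by linarith)).1

theorem lp_val {α β : ℝ → X} {x y : X} (hL : 0 < L) (hα : Trk α x y L) (hβ : Trk β x y L)
    {t : ℝ} (ht : t ∈ Icc (0 : ℝ) L) : pz (2 * L) (jn α β L L) t = α t := by
  have h1 := jn_mem hα hβ hL.le hL.le (le_of_eq (by ring : L + L = 2 * L))
  have h2 := pz_eq (by linarith : 0 < 2 * L) (γ := jn α β L L) (by
    rw [h1.2.1]
    exact h1.2.2 _ (by linarith)) 0 (t := t) (by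
    push_cast
    exact ⟨by linarith [ht.1], by linarith [ht.2]⟩)
  rw [h2]
  push_cast
  rw [zero_mul, sub_zero]
  exact jn_left ht.2

theorem lp_rev {α β : ℝ → X} {x y : X} (hL : 0 < L) (hα : Trk α x y L) (hβ : Trk β x y L) :
    pz (2 * L) (jn β α L L) = fun u => pz (2 * L) (jn α β L L) (-u) := by
  have h1 := jn_mem hα hβ hL.le hL.le (le_of_eq (by ring : L + L = 2 * L))
  refine pz_rev (by linarith) ?_ fun t _ => jn_swap hα hβ t
  rw [h1.2.1]
  exact h1.2.2 _ (by linarith)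

include hL hD

theorem K0_zero {α β : ℝ → X} {x y : X} (hα : Trk α x y L) (hβ : Trk β x y L) {σ : ℝ}
    (hσ : σ ∈ Icc (0 : ℝ) 1) : K0 L D α β 0 σ = α (L * σ) := by
  unfold K0
  rw [sS_zero, tS_zero, hD.zero _ (lp_mem hL hα hβ)]
  exact lp_val hL hα hβ ⟨mul_nonneg hL.le hσ.1, by nlinarith [hσ.2]⟩

theorem K0_left {α β : ℝ → X} {x y : X} (hα : Trk α x y L) (hβ : Trk β x y L) (μ : ℝ) :
    K0 L D α β μ 0 = x := by
  unfold K0
  rw [sS_left, tS_left, hD.zero _ (lp_mem hL hα hβ), mul_zero,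
    lp_val hL hα hβ ⟨le_rfl, hL.le⟩, hα.2.1 0 le_rfl]

theorem K0_right {α β : ℝ → X} {x y : X} (hα : Trk α x y L) (hβ : Trk β x y L) (μ : ℝ) :
    K0 L D α β μ 1 = y := by
  unfold K0
  rw [sS_right, tS_right, hD.zero _ (lp_mem hL hα hβ), mul_one,
    lp_val hL hα hβ ⟨hL.le, le_rfl⟩, hα.2.2 L le_rfl]

theorem K0_half {α β : ℝ → X} {x y : X} (hα : Trk α x y L) (hβ : Trk β x y L) (σ : ℝ) :
    K0 L D α β (1 / 2) σ = K0 L D β α (1 / 2) σ := by
  unfold K0
  have hm := lp_mem hL hα hβ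
  rw [lp_rev hL hα hβ, hD.rev _ hm _ (sS_mem _ _)]
  rcases half_cases σ with h | h | h
  · rw [h, mul_zero, neg_zero]
  · rw [h, hD.one _ hm (L * _), hD.one _ hm (-(L * _))]
  · rw [h, mul_one, ← hD.per _ hm _ (sS_mem _ _) (-L)]
    congr 1
    ring

end

theorem s_KSYM : S_KSYM := by
  classical
  intro X _ _ r m hr hm hs L hL D hD W _ _ f g hf hg S hS hS2
  -- the compact space of pairs
  set Q : Set (W × (ℝ → X) × (ℝ → X)) := {q | (q.1, q.2.1) ∈ S ∧ (q.1, q.2.2) ∈ S} with hQ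
  have hQc : IsClosed Q := by
    refine IsClosed.inter (hS.preimage ?_) (hS.preimage ?_)
    · exact continuous_fst.prodMk (continuous_fst.comp continuous_snd)
    · exact continuous_fst.prodMk (continuous_snd.comp continuous_snd)
  have hQcomp : CompactSpace ↥Q := isCompact_iff_compactSpace.1 hQc.isCompact
  set A : ↥Q → ℝ → X := fun q => q.1.2.1 with hA
  set B : ↥Q → ℝ → X := fun q => q.1.2.2 with hB
  have hAc : Continuous A := continuous_fst.comp (continuous_snd.comp continuous_subtype_val)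
  have hBc : Continuous B := continuous_snd.comp (continuous_snd.comp continuous_subtype_val)
  have hAt : ∀ q : ↥Q, Trk (A q) (f q.1.1) (g q.1.1) L := fun q => hS2 _ q.2.1
  have hBt : ∀ q : ↥Q, Trk (B q) (f q.1.1) (g q.1.1) L := fun q => hS2 _ q.2.2
  set sw : ↥Q → ↥Q := fun q => ⟨(q.1.1, q.1.2.2, q.1.2.1), q.2.2, q.2.1⟩ with hsw
  have hswc : Continuous sw := by
    refine Continuous.subtype_mk ?_ _
    exact (continuous_fst.comp continuous_subtype_val).prodMk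
      ((continuous_snd.comp (continuous_snd.comp continuous_subtype_val)).prodMk
        (continuous_fst.comp (continuous_snd.comp continuous_subtype_val)))
  have hss : ∀ q, sw (sw q) = q := fun q => rfl
  -- half of the way
  set F : ↥Q → ℝ → ℝ → X := fun q μ σ => K0 L D (A q) (B q) μ (c1 σ) with hF
  have hlp : Continuous fun q : ↥Q => pz (2 * L) (jn (A q) (B q) L L) := by
    rw [continuous_pi_iff]
    intro t
    have e1 := jn_cont hAc hBc (continuous_const (y := L)) (continuous_const (y := L)) hAt hBt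
    exact (continuous_pi_iff.1 e1) (t - ⌊t / (2 * L)⌋ * (2 * L))
  have hs' : Continuous fun q : ℝ × ℝ => sS q.1 q.2 := by
    unfold sS
    exact c1_cont.comp (by fun_prop)
  have ht' : Continuous fun q : ℝ × ℝ => tS q.1 q.2 := by
    unfold tS
    exact ((continuous_const.sub (continuous_const.mul continuous_fst)).mul continuous_snd).add
      ((continuous_const.mul continuous_fst).mul (c1_cont.comp (by fun_prop)))
  have hFc : Continuous fun q : ↥Q × ℝ × ℝ => F q.1 q.2.1 q.2.2 := by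
    have e1 : Continuous fun q : ↥Q × ℝ × ℝ => ((q.2.1, c1 q.2.2) : ℝ × ℝ) :=
      (continuous_fst.comp continuous_snd).prodMk
        (c1_cont.comp (continuous_snd.comp continuous_snd))
    exact hD.cont.comp_continuous ((hlp.comp continuous_fst).prodMk ((hs'.comp e1).prodMk
      (continuous_const.mul (ht'.comp e1)))) fun q =>
        ⟨lp_mem hL (hAt q.1) (hBt q.1), sS_mem _ _⟩
  have hFhalf : ∀ q σ, F q (1 / 2) σ = F (sw q) (1 / 2) σ := fun q σ =>
    K0_half hL hD (hAt q) (hBt q) (c1 σ)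
  -- the separating function
  set E : Set ↥Q := {q | ∃ μ ∈ Icc (0 : ℝ) (1 / 2), ∃ σ ∈ Icc (0 : ℝ) 1,
    r ≤ dist (F q μ σ) (F (sw q) μ σ)} with hE
  have hEc : IsClosed E := by
    have e1 : IsCompact ((univ ×ˢ Icc (0 : ℝ) (1 / 2) ×ˢ Icc (0 : ℝ) 1) ∩
        {q : ↥Q × ℝ × ℝ | r ≤ dist (F q.1 q.2.1 q.2.2) (F (sw q.1) q.2.1 q.2.2)}) := by
      refine (isCompact_univ.prod (isCompact_Icc.prod isCompact_Icc)).inter_right
        (isClosed_le continuous_const (hFc.dist ?_))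
      exact hFc.comp ((hswc.comp continuous_fst).prodMk continuous_snd)
    have e2 : E = Prod.fst '' ((univ ×ˢ Icc (0 : ℝ) (1 / 2) ×ˢ Icc (0 : ℝ) 1) ∩
        {q : ↥Q × ℝ × ℝ | r ≤ dist (F q.1 q.2.1 q.2.2) (F (sw q.1) q.2.1 q.2.2)}) := by
      ext q
      constructor
      · rintro ⟨μ, hμ, σ, hσ, h⟩
        exact ⟨(q, μ, σ), ⟨⟨mem_univ _, hμ, hσ⟩, h⟩, rfl⟩
      · rintro ⟨⟨q', μ, σ⟩, ⟨⟨-, hμ, hσ⟩, h⟩, rfl⟩
        exact ⟨μ, hμ, σ, hσ, h⟩
    rw [e2]
    exact (e1.image continuous_fst).isClosed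
  have hdiagc : IsClosed {q : ↥Q | A q = B q} := isClosed_eq hAc hBc
  have hswd : ∀ q : ↥Q, A q = B q → sw q = q := by
    intro q h
    apply Subtype.ext
    have h1 : q.1.2.1 = q.1.2.2 := h
    change (q.1.1, q.1.2.2, q.1.2.1) = (q.1.1, q.1.2.1, q.1.2.2)
    rw [h1]
  have hdisj : Disjoint {q : ↥Q | A q = B q} E := by
    rw [Set.disjoint_left]
    rintro q hq ⟨μ, hμ, σ, hσ, h⟩
    rw [hswd q hq, dist_self] at h
    linarith
  obtain ⟨v0, hv1, hv2, hv3⟩ := exists_continuous_zero_one_of_isClosed hdiagc hEc hdisj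
  set v : ↥Q → ℝ := fun q => max (v0 q) (v0 (sw q)) with hv
  have hvc : Continuous v := (map_continuous v0).max ((map_continuous v0).comp hswc)
  have hv01 : ∀ q, v q ∈ Icc (0 : ℝ) 1 := fun q =>
    ⟨(hv3 q).1.trans (le_max_left _ _), max_le (hv3 q).2 (hv3 _).2⟩
  have hvsw : ∀ q, v (sw q) = v q := by
    intro q
    simp only [hv]
    rw [hss, max_comm]
  have hvd : ∀ q, A q = B q → v q = 0 := by
    intro q h
    simp only [hv]
    rw [hswd q h]
    have : v0 q = 0 := hv1 h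
    rw [this, max_self]
  have hvE : ∀ q ∈ E, v q = 1 := by
    intro q h
    refine le_antisymm (hv01 q).2 ?_
    have : v0 q = 1 := hv2 h
    exact this.ge.trans (le_max_left _ _)
  have hdist : ∀ q σ, dist (F q (v q / 2) σ) (F (sw q) (v q / 2) σ) ≤ r := by
    intro q σ
    by_cases h : q ∈ E
    · rw [hvE q h, hFhalf q σ, dist_self]
      exact hr.le
    · by_contra h2
      apply h
      refine ⟨v q / 2, ⟨by linarith [(hv01 q).1], by linarith [(hv01 q).2]⟩, c1 σ, c1_mem σ, ?_⟩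
      have e1 : c1 (c1 σ) = c1 σ := c1_of (c1_mem σ)
      simp only [hF]
      rw [e1]
      exact (not_le.1 h2).le
  -- the families
  set KQ : ↥Q → ℝ → ℝ → X := fun q l σ => if l ≤ 1 / 3 then F q (3 * l * v q / 2) σ else
    if l ≤ 2 / 3 then m (F q (v q / 2) σ) (F (sw q) (v q / 2) σ) (c1 (3 * l - 1)) else
      F (sw q) ((3 - 3 * l) * v q / 2) σ with hKQ
  have hKc : Continuous fun q : ↥Q × ℝ × ℝ => KQ q.1 q.2.1 q.2.2 := by
    have ev : Continuous fun q : ↥Q × ℝ × ℝ => v q.1 := hvc.comp continuous_fst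
    have el : Continuous fun q : ↥Q × ℝ × ℝ => q.2.1 := continuous_fst.comp continuous_snd
    have eσ : Continuous fun q : ↥Q × ℝ × ℝ => q.2.2 := continuous_snd.comp continuous_snd
    have p1 : Continuous fun q : ↥Q × ℝ × ℝ => F q.1 (3 * q.2.1 * v q.1 / 2) q.2.2 :=
      hFc.comp (continuous_fst.prodMk ((by fun_prop :
        Continuous fun q : ↥Q × ℝ × ℝ => 3 * q.2.1 * v q.1 / 2).prodMk eσ))
    have p3 : Continuous fun q : ↥Q × ℝ × ℝ => F (sw q.1) ((3 - 3 * q.2.1) * v q.1 / 2) q.2.2 :=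
      hFc.comp ((hswc.comp continuous_fst).prodMk ((by fun_prop :
        Continuous fun q : ↥Q × ℝ × ℝ => (3 - 3 * q.2.1) * v q.1 / 2).prodMk eσ))
    have p2a : Continuous fun q : ↥Q × ℝ × ℝ => F q.1 (v q.1 / 2) q.2.2 :=
      hFc.comp (continuous_fst.prodMk ((ev.div_const 2).prodMk eσ))
    have p2b : Continuous fun q : ↥Q × ℝ × ℝ => F (sw q.1) (v q.1 / 2) q.2.2 :=
      hFc.comp ((hswc.comp continuous_fst).prodMk ((ev.div_const 2).prodMk eσ))
    have p2c : Continuous fun q : ↥Q × ℝ × ℝ => c1 (3 * q.2.1 - 1) :=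
      c1_cont.comp (by fun_prop)
    have p2 : Continuous fun q : ↥Q × ℝ × ℝ =>
        m (F q.1 (v q.1 / 2) q.2.2) (F (sw q.1) (v q.1 / 2) q.2.2) (c1 (3 * q.2.1 - 1)) :=
      hm.cont.comp_continuous (p2a.prodMk (p2b.prodMk p2c)) fun q => ⟨hdist _ _, c1_mem _⟩
    refine Continuous.if_le p1 (Continuous.if_le p2 p3 el continuous_const ?_) el
      continuous_const ?_
    · intro q hq
      rw [hq, c1_high (by norm_num), hm.one _ _ (hdist _ _)]
      congr 1
      ring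
    · intro q hq
      rw [hq, if_pos (by norm_num), c1_low (by norm_num), hm.zero _ _ (hdist _ _)]
      congr 1
      ring
  have hc1v : ∀ q, v q / 2 ∈ Icc (0 : ℝ) (1 / 2) := fun q =>
    ⟨by linarith [(hv01 q).1], by linarith [(hv01 q).2]⟩
  obtain ⟨K, hK'⟩ : ∃ K : W → (ℝ → X) → (ℝ → X) → ℝ → ℝ → X, K = fun w α β l σ =>
    if h : (w, α) ∈ S ∧ (w, β) ∈ S then KQ ⟨(w, α, β), h⟩ l σ else f w := ⟨_, rfl⟩
  have hK : ∀ w α β (h1 : (w, α) ∈ S) (h2 : (w, β) ∈ S) l σ,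
      K w α β l σ = KQ ⟨(w, α, β), h1, h2⟩ l σ := by
    intro w α β h1 h2 l σ
    rw [hK']
    dsimp only
    rw [dif_pos ⟨h1, h2⟩]
  refine ⟨K, ?_, ?_, ?_, ?_, ?_, ?_⟩
  · rw [continuousOn_iff_continuous_domRestrict]
    have e1 : Continuous fun q : ↥{q : W × (ℝ → X) × (ℝ → X) × ℝ × ℝ | (q.1, q.2.1) ∈ S ∧
        (q.1, q.2.2.1) ∈ S ∧ q.2.2.2.1 ∈ Icc (0 : ℝ) 1 ∧ q.2.2.2.2 ∈ Icc (0 : ℝ) 1} =>
        ((⟨(q.1.1, q.1.2.1, q.1.2.2.1), q.2.1, q.2.2.1⟩, q.1.2.2.2.1, q.1.2.2.2.2) :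
          ↥Q × ℝ × ℝ) := by
      refine Continuous.prodMk (Continuous.subtype_mk ?_ _) (Continuous.prodMk ?_ ?_)
      · fun_prop
      · fun_prop
      · fun_prop
    refine (hKc.comp e1).congr ?_
    intro q
    exact (hK q.1.1 q.1.2.1 q.1.2.2.1 q.2.1 q.2.2.1 q.1.2.2.2.1 q.1.2.2.2.2).symm
  · intro w α β h1 h2 l hl
    rw [hK w α β h1 h2]
    have c0 : c1 0 = 0 := c1_low le_rfl
    have e1 : ∀ μ, F ⟨(w, α, β), h1, h2⟩ μ 0 = f w := by
      intro μ
      simp only [hF, c0]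
      exact K0_left hL hD (α := α) (β := β) (hS2 (w, α) h1) (hS2 (w, β) h2) μ
    have e2 : ∀ μ, F (sw ⟨(w, α, β), h1, h2⟩) μ 0 = f w := by
      intro μ
      simp only [hF, c0]
      exact K0_left hL hD (α := β) (β := α) (hS2 (w, β) h2) (hS2 (w, α) h1) μ
    simp only [hKQ, e1, e2]
    rw [hm.self hr.le _ (c1_mem _)]
    split_ifs <;> rfl
  · intro w α β h1 h2 l hl
    rw [hK w α β h1 h2]
    have c0 : c1 1 = 1 := c1_high le_rfl
    have e1 : ∀ μ, F ⟨(w, α, β), h1, h2⟩ μ 1 = g w := by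
      intro μ
      simp only [hF, c0]
      exact K0_right hL hD (α := α) (β := β) (hS2 (w, α) h1) (hS2 (w, β) h2) μ
    have e2 : ∀ μ, F (sw ⟨(w, α, β), h1, h2⟩) μ 1 = g w := by
      intro μ
      simp only [hF, c0]
      exact K0_right hL hD (α := β) (β := α) (hS2 (w, β) h2) (hS2 (w, α) h1) μ
    simp only [hKQ, e1, e2]
    rw [hm.self hr.le _ (c1_mem _)]
    split_ifs <;> rfl
  · intro w α β h1 h2 σ hσ
    rw [hK w α β h1 h2]
    simp only [hKQ]
    rw [if_pos (by norm_num), mul_zero, zero_mul, zero_div]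
    simp only [hF, c1_of hσ]
    exact K0_zero hL hD (α := α) (β := β) (hS2 (w, α) h1) (hS2 (w, β) h2) hσ
  · intro w α β h1 h2 l hl σ hσ
    rw [hK w α β h1 h2, hK w β α h2 h1]
    obtain ⟨q, hq⟩ : ∃ q : ↥Q, q = ⟨(w, α, β), h1, h2⟩ := ⟨_, rfl⟩
    have hq' : (⟨(w, β, α), h2, h1⟩ : ↥Q) = sw q := by rw [hq]
    rw [hq', ← hq]
    simp only [hKQ]
    rw [hvsw, hss]
    rcases lt_trichotomy l (1 / 3) with h | h | h
    · rw [if_pos h.le, if_neg (by linarith), if_neg (by linarith)]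
      congr 1
      ring
    · rw [h, if_pos le_rfl, if_neg (by norm_num), if_pos (by norm_num), c1_high (by norm_num),
        hm.one _ _ (by rw [dist_comm]; exact hdist q σ)]
      congr 1
      ring
    · rcases lt_trichotomy l (2 / 3) with h' | h' | h'
      · rw [if_neg (by linarith), if_pos h'.le, if_neg (by linarith), if_pos (by linarith),
          hs _ _ (hdist q σ) _ (c1_mem _), c1_of ⟨by linarith, by linarith⟩,
          c1_of ⟨by linarith, by linarith⟩]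
        congr 1
        ring
      · rw [h', if_neg (by norm_num), if_pos le_rfl, if_pos (by norm_num), c1_high (by norm_num),
          hm.one _ _ (hdist q σ)]
        congr 1
        ring
      · rw [if_neg (by linarith), if_neg (by linarith), if_pos (by linarith)]
        congr 1
        ring
  · intro w α h1 l hl σ hσ
    rw [hK w α α h1 h1]
    obtain ⟨q, hq⟩ : ∃ q : ↥Q, q = ⟨(w, α, α), h1, h1⟩ := ⟨_, rfl⟩
    have hsq : sw q = q := hswd q (by rw [hq])
    have hvq : v q = 0 := hvd q (by rw [hq])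
    rw [← hq]
    have e1 : F q 0 σ = α (L * σ) := by
      simp only [hF, c1_of hσ, hq]
      exact K0_zero hL hD (α := α) (β := α) (hS2 (w, α) h1) (hS2 (w, α) h1) hσ
    simp only [hKQ]
    rw [hsq, hvq, mul_zero, mul_zero, zero_div, e1, hm.self hr.le _ (c1_mem _)]
    split_ifs <;> rfl

end Pool.Agent.L7h61.CL
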