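import Pool.Agent.L7h61.CL.Cut

/-!
# Project TM: at most two minimal geodesics (helper61), statements

Theorem in view: `X` a closed manifold (compact geodesic space with unique short geodesics which is
a Euclidean neighbourhood retract), `f, g : W → X` two maps of a compact metric space; if every `w`
has at most two minimal geodesics from `f w` to `g w`, then there is a closed geodesic of length at
most `2 max d(f w, g w)`, or `f` and `g` are homotopic.
-/

set_option autoImplicit false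

open Set Topology

noncomputable section

namespace Pool.Agent.L7h61.CL

open Pool.Agent.Y489.GE

/-- closed curves of speed at most one with period `c` -/
def Per (X : Type) [MetricSpace X] (c : ℝ) : Set (ℝ → X) :=
  {C | (∀ s t, dist (C s) (C t) ≤ |s - t|) ∧ ∀ t, C (t + c) = C t}

/-- symmetry of the choice of geodesics -/
def MSym {X : Type} [MetricSpace X] (r : ℝ) (m : X → X → ℝ → X) : Prop :=
  ∀ x y, dist x y ≤ r → ∀ t ∈ Icc (0 : ℝ) 1, m x y t = m y x (1 - t)

/-- a contraction of the closed curves of length at most `c` through closed curves which commutes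
with the reversal of the direction -/
structure DSym (X : Type) [MetricSpace X] (c : ℝ) (D : (ℝ → X) → ℝ → ℝ → X) : Prop where
  cont : ContinuousOn (fun q : (ℝ → X) × ℝ × ℝ => D q.1 q.2.1 q.2.2)
    {q | q.1 ∈ Per X c ∧ q.2.1 ∈ Icc (0 : ℝ) 1}
  zero : ∀ C ∈ Per X c, ∀ t, D C 0 t = C t
  one : ∀ C ∈ Per X c, ∀ t, D C 1 t = D C 1 0
  per : ∀ C ∈ Per X c, ∀ s ∈ Icc (0 : ℝ) 1, ∀ t, D C s (t + c) = D C s t
  rev : ∀ C ∈ Per X c, ∀ s ∈ Icc (0 : ℝ) 1, ∀ t, D (fun u => C (-u)) s t = D C s (-t)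

/-- symmetric families of paths between the elements of a family `S` of curves of length at most `L`
from `f w` to `g w` -/
structure KSym {X W : Type} [MetricSpace X] [MetricSpace W] (f g : W → X) (L : ℝ)
    (S : Set (W × (ℝ → X))) (K : W → (ℝ → X) → (ℝ → X) → ℝ → ℝ → X) : Prop where
  cont : ContinuousOn (fun q : W × (ℝ → X) × (ℝ → X) × ℝ × ℝ =>
      K q.1 q.2.1 q.2.2.1 q.2.2.2.1 q.2.2.2.2)
    {q | (q.1, q.2.1) ∈ S ∧ (q.1, q.2.2.1) ∈ S ∧ q.2.2.2.1 ∈ Icc (0 : ℝ) 1 ∧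
      q.2.2.2.2 ∈ Icc (0 : ℝ) 1}
  left : ∀ w α β, (w, α) ∈ S → (w, β) ∈ S → ∀ l ∈ Icc (0 : ℝ) 1, K w α β l 0 = f w
  right : ∀ w α β, (w, α) ∈ S → (w, β) ∈ S → ∀ l ∈ Icc (0 : ℝ) 1, K w α β l 1 = g w
  zero : ∀ w α β, (w, α) ∈ S → (w, β) ∈ S → ∀ σ ∈ Icc (0 : ℝ) 1, K w α β 0 σ = α (L * σ)
  swap : ∀ w α β, (w, α) ∈ S → (w, β) ∈ S → ∀ l ∈ Icc (0 : ℝ) 1, ∀ σ ∈ Icc (0 : ℝ) 1,
    K w α β l σ = K w β α (1 - l) σ
  diag : ∀ w α, (w, α) ∈ S → ∀ l ∈ Icc (0 : ℝ) 1, ∀ σ ∈ Icc (0 : ℝ) 1,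
    K w α α l σ = α (L * σ)

/-- `X` is a Euclidean neighbourhood retract -/
def ENR (X : Type) [TopologicalSpace X] : Prop :=
  ∃ (N : ℕ) (e : X → (Fin N → ℝ)) (U : Set (Fin N → ℝ)) (ρ : (Fin N → ℝ) → X),
    Continuous e ∧ IsOpen U ∧ (∀ x, e x ∈ U) ∧ ContinuousOn ρ U ∧ ∀ x, ρ (e x) = x

/-- PART A (helper61): the symmetric contraction -/
def S_DSYM : Prop := ∀ (X : Type) [MetricSpace X] [CompactSpace X] (r : ℝ) (m : X → X → ℝ → X),
  0 < r → GMap X r m → MSym r m → ∀ c : ℝ, 0 < c → ¬ ClosedGeod X c → ∃ D, DSym X c D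

/-- PART B: the symmetric paths. Proof: let `C α β` be the curve of period `2 L` which is `α t` on
`[0, L]` and `β (2 L - t)` on `[L, 2 L]`; then `C β α = C α β (-·)`. Put (functions `sS`, `tS` of
`CL/Glue.lean`) `K0 α β μ σ = D (C α β) (sS μ σ) (L * tS μ σ)` for `μ` in `[0, 1 / 2]`; it is a path
(parameter `σ`) from `f w` to `g w`, equal to `α (L σ)` for `μ = 0`, and `K0 α β (1/2) = K0 β α (1/2)`
by `half_cases`. The space `Q` of all `(w, α, β)` with `(w, α), (w, β) ∈ S` is compact Hausdorff, so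
there is (Urysohn, then symmetrise by `max`) a continuous `v : Q → [0, 1]`, symmetric, `v = 0` if
`α = β`, `v = 1` if `dist (K0 α β μ σ) (K0 β α μ σ) ≥ r` for some `μ ∈ [0, 1/2]`, `σ ∈ [0, 1]`.
Then `K w α β l` goes along `K0 α β` from `μ = 0` to `v / 2` for `l ≤ 1/3`
(`K0 α β (3 l v / 2) σ`), is `m (K0 α β (v/2) σ) (K0 β α (v/2) σ) (3 l - 1)` for
`1/3 ≤ l ≤ 2/3` (the distance is `< r` if `v < 1` and `0` if `v = 1`), and
`K0 β α ((3 - 3 l) v / 2) σ` for `l ≥ 2/3`. -/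
def S_KSYM : Prop := ∀ (X : Type) [MetricSpace X] [CompactSpace X] (r : ℝ) (m : X → X → ℝ → X),
  0 < r → GMap X r m → MSym r m → ∀ L : ℝ, 0 < L → ∀ D : (ℝ → X) → ℝ → ℝ → X,
  DSym X (2 * L) D → ∀ (W : Type) [MetricSpace W] [CompactSpace W] (f g : W → X),
  Continuous f → Continuous g → ∀ S : Set (W × (ℝ → X)), IsClosed S →
  (∀ z ∈ S, Trk z.2 (f z.1) (g z.1) L) → ∃ K, KSym f g L S K

/-- PART C: from the symmetric paths to a homotopy. Proof: for a curve `α` let `ê α ∈ C([0,1], ℝ^N)`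
be `σ ↦ e (α (L σ))` (continuous on `S`: `eval_cont` and currying; injective on the fibres of `S`).
Let `E` be the compact space of all `(w, α, β, l)` with `(w, α), (w, β) ∈ S`, `l ∈ [0, 1]`, and `J`
the image of `E` under `(w, α, β, l) ↦ (w, (1 - l) ê α + l ê β)` in `V = W × C([0,1], ℝ^N)`, compact
with convex fibres `J_w` (points or segments). `K` descends to a continuous map `J × [0,1] → X`
(quotient map from a compact to a Hausdorff space; well defined by `zero`, `swap`, `diag` since there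
are at most two elements in each fibre). Extend `e ∘ K` by Tietze to `G : V × [0,1] → ℝ^N` and
correct it so that `G (w, ℓ, 0) = e (f w)`, `G (w, ℓ, 1) = e (g w)` (add
`(1 - σ) (e (f w) - G (w, ℓ, 0)) + σ (e (g w) - G (w, ℓ, 1))`). The set `O` of all `(w, ℓ)` with
`G (w, ℓ, σ) ∈ U` for all `σ ∈ [0,1]` is open and contains `J`. There is a continuous
`s : W → C([0,1], ℝ^N)` with `(w, s w) ∈ O` for all `w`
(`exists_continuous_forall_mem_convex_of_local_const` with `t w` = convex hull of the union of the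
`J_{w'}`, `dist w w' < η`; for small `η`, by the Lebesgue number lemma and the upper semicontinuity
of `J_w`, it is contained in the `ε`-thickening of `J_{w₀}` for some `w₀` with `dist w w₀ < ε`, where
the `ε`-thickening of `J` is contained in `O`). The homotopy is `ρ (G (w, s w, σ))`. -/
def S_SOFT : Prop := ∀ (X : Type) [MetricSpace X] [CompactSpace X], ENR X →
  ∀ (W : Type) [MetricSpace W] [CompactSpace W] (f g : C(W, X)) (L : ℝ) (S : Set (W × (ℝ → X)))
  (K : W → (ℝ → X) → (ℝ → X) → ℝ → ℝ → X), 0 < L → IsClosed S → (∀ w, ∃ γ, (w, γ) ∈ S) →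
  (∀ w α β γ, (w, α) ∈ S → (w, β) ∈ S → (w, γ) ∈ S → α = β ∨ α = γ ∨ β = γ) →
  (∀ z ∈ S, Trk z.2 (f z.1) (g z.1) L) → KSym (fun w => f w) (fun w => g w) L S K →
  f.Homotopic g

end Pool.Agent.L7h61.CL
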