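import Pool.Agent.L7h61.CL.Chd
import Pool.Agent.Y590.GE.BK

/-!
# Project TM: the symmetric contraction of closed curves (helper61)
-/

set_option autoImplicit false

open Set Topology

noncomputable section

namespace Pool.Agent.L7h61.CL

open Pool.Agent.Y489.GE Pool.Agent.Y50.GE Pool.Agent.Y590.GE

variable {X : Type} [MetricSpace X]

/-- reversal -/
def rv (C : ℝ → X) : ℝ → X := fun u => C (-u)

theorem rv_rv (C : ℝ → X) : rv (rv C) = C := by
  funext u
  unfold rv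
  rw [neg_neg]

theorem rv_mem {c : ℝ} {C : ℝ → X} (hC : C ∈ Per X c) : rv C ∈ Per X c := by
  refine ⟨fun s t => ?_, fun t => ?_⟩
  · refine (hC.1 _ _).trans (le_of_eq ?_)
    rw [abs_sub_comm]
    congr 1
    ring
  · unfold rv
    rw [← hC.2 (-(t + c))]
    congr 1
    ring

/-- symmetric homotopies -/
def SH (X : Type) [MetricSpace X] (c : ℝ) (F G : ↥(Per X c) → ↥(Per X c)) : Prop :=
  ∃ H : ↥(Per X c) → ℝ → ↥(Per X c), Continuous (fun z : ↥(Per X c) × ℝ => H z.1 z.2) ∧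
    (∀ C s, s ≤ 0 → H C s = F C) ∧ (∀ C s, 1 ≤ s → H C s = G C) ∧
    ∀ C s, (H ⟨rv C.1, rv_mem C.2⟩ s).1 = rv (H C s).1

theorem SH.trans {c : ℝ} {F G K : ↥(Per X c) → ↥(Per X c)} (h : SH X c F G) (h' : SH X c G K) :
    SH X c F K := by
  obtain ⟨H, h1, h3, h4, h5⟩ := h
  obtain ⟨H', h1', h3', h4', h5'⟩ := h'
  refine ⟨fun y s => if s ≤ 1 / 2 then H y (2 * s) else H' y (2 * s - 1), ?_, ?_, ?_, ?_⟩
  · refine Continuous.if_le ?_ ?_ continuous_snd continuous_const ?_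
    · exact h1.comp (continuous_fst.prodMk (continuous_const.mul continuous_snd))
    · exact h1'.comp (continuous_fst.prodMk ((continuous_const.mul continuous_snd).sub
        continuous_const))
    · intro z hz
      rw [h4 _ _ (by linarith), h3' _ _ (by linarith)]
  · intro y s hs
    dsimp only
    rw [if_pos (by linarith), h3 _ _ (by linarith)]
  · intro y s hs
    dsimp only
    rw [if_neg (by linarith), h4' _ _ (by linarith)]
  · intro y s
    dsimp only
    split_ifs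
    · exact h5 _ _
    · exact h5' _ _

section

variable {r : ℝ} {m : X → X → ℝ → X} (hm : GMap X r m) (hs : MSym r m) {δ c : ℝ} {N : ℕ}
  (hδ : 0 < δ) (hδr : δ ≤ r) (hNδ : c = N * δ)

include hm hδ hδr hNδ in
theorem chd_mem (o : ℝ) {C : ℝ → X} (hC : C ∈ Per X c) {s : ℝ}
    (hs' : s ∈ Icc (0 : ℝ) (1 / 2)) : chd m δ o C s ∈ Per X c := by
  subst hNδ
  exact ⟨chd_lip hm hδ hδr hC.1 hs', chd_per hδ hC.2 o s⟩

/-- the full step -/
def stp (o : ℝ) (C : ↥(Per X c)) : ↥(Per X c) :=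
  ⟨chd m δ o C.1 (1 / 2), chd_mem hm hδ hδr hNδ o C.2 ⟨by norm_num, le_rfl⟩⟩

include hs in
theorem stp_SH {o : ℝ} (ho : ∃ j : ℤ, 2 * o = j) (F : ↥(Per X c) → ↥(Per X c))
    (hF : Continuous F) (hF2 : ∀ C, (F ⟨rv C.1, rv_mem C.2⟩).1 = rv (F C).1) :
    SH X c F (fun C => stp hm hδ hδr hNδ o (F C)) := by
  have hcl : ∀ s : ℝ, max 0 (min s 1) / 2 ∈ Icc (0 : ℝ) (1 / 2) := by
    intro s
    have h1 : 0 ≤ max 0 (min s 1) := le_max_left _ _
    have h2 : max 0 (min s 1) ≤ 1 := max_le zero_le_one (min_le_right _ _)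
    exact ⟨by linarith, by linarith⟩
  refine ⟨fun C s => ⟨chd m δ o (F C).1 (max 0 (min s 1) / 2),
    chd_mem hm hδ hδr hNδ o (F C).2 (hcl s)⟩, ?_, ?_, ?_, ?_⟩
  · refine Continuous.subtype_mk ?_ _
    exact chd_cont hm hδ hδr o (F := fun z : ↥(Per X c) × ℝ => (F z.1).1)
      (u := fun z => max 0 (min z.2 1) / 2)
      (continuous_subtype_val.comp (hF.comp continuous_fst)) (fun z => (F z.1).2.1)
      (by fun_prop) (fun z => hcl _)
  · intro C s h
    apply Subtype.ext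
    funext t
    dsimp only
    rw [max_eq_left ((min_le_left _ _).trans h), zero_div]
    exact chd_zero hm hδ hδr (F C).2.1 o t
  · intro C s h
    apply Subtype.ext
    dsimp only
    rw [min_eq_right h, max_eq_right zero_le_one]
    rfl
  · intro C s
    dsimp only
    rw [hF2 C]
    funext t
    exact chd_rev hm hδ hδr (F C).2.1 hs ho (hcl s) t

/-- the iterates -/
def itr : ℕ → ↥(Per X c) → ↥(Per X c)
  | 0 => id
  | k + 1 => fun C => stp hm hδ hδr hNδ ((k + 1) / 2) (itr k C)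

theorem stp_cont (o : ℝ) : Continuous (stp (m := m) hm hδ hδr hNδ o) := by
  refine Continuous.subtype_mk ?_ _
  exact chd_cont hm hδ hδr o (F := fun z : ↥(Per X c) => z.1) (u := fun _ => 1 / 2)
    continuous_subtype_val (fun z => z.2.1) continuous_const
    (fun _ => ⟨by norm_num, le_rfl⟩)

theorem itr_cont (k : ℕ) : Continuous (itr (m := m) hm hδ hδr hNδ k) := by
  induction k with
  | zero => exact continuous_id
  | succ k ih => exact (stp_cont hm hδ hδr hNδ _).comp ih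

include hs in
theorem itr_rev (k : ℕ) (C : ↥(Per X c)) :
    (itr hm hδ hδr hNδ k ⟨rv C.1, rv_mem C.2⟩).1 = rv (itr hm hδ hδr hNδ k C).1 := by
  induction k with
  | zero => rfl
  | succ k ih =>
    change chd m δ _ (itr hm hδ hδr hNδ k ⟨rv C.1, rv_mem C.2⟩).1 (1 / 2) = _
    rw [ih]
    funext t
    exact chd_rev hm hδ hδr (itr hm hδ hδr hNδ k C).2.1 hs ⟨k + 1, by push_cast; ring⟩
      ⟨by norm_num, le_rfl⟩ t

include hs in
theorem itr_SH (k : ℕ) : SH X c id (itr (m := m) hm hδ hδr hNδ k) := by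
  induction k with
  | zero =>
    exact ⟨fun C _ => C, continuous_fst, fun _ _ _ => rfl, fun _ _ _ => rfl, fun _ _ => rfl⟩
  | succ k ih =>
    exact ih.trans (stp_SH hm hs hδ hδr hNδ ⟨k + 1, by push_cast; ring⟩ _
      (itr_cont hm hδ hδr hNδ k) (itr_rev hm hs hδ hδr hNδ k))

/-- the vertices of the polygon of stage `k + 1` -/
def vx (k : ℕ) (C : ↥(Per X c)) (n : ℤ) : X :=
  (itr hm hδ hδr hNδ (k + 1) C).1 ((n + k / 2) * δ)

/-- the curve of stage `k + 1` on a side -/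
theorem itr_side (k : ℕ) (C : ↥(Per X c)) (n : ℤ) {θ : ℝ} (hθ : θ ∈ Icc (0 : ℝ) 1) :
    (itr hm hδ hδr hNδ (k + 1) C).1 ((n + k / 2 + θ) * δ) =
      m (vx hm hδ hδr hNδ k C n) (vx hm hδ hδr hNδ k C (n + 1)) θ := by
  have hL := (itr hm hδ hδr hNδ k C).2.1
  have key : ∀ θ ∈ Icc (0 : ℝ) 1, (itr hm hδ hδr hNδ (k + 1) C).1 ((n + k / 2 + θ) * δ) =
      m ((itr hm hδ hδr hNδ k C).1 ((n + k / 2) * δ))
        ((itr hm hδ hδr hNδ k C).1 ((n + 1 + k / 2) * δ)) θ := by
    intro θ hθ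
    change chd m δ ((k + 1) / 2) (itr hm hδ hδr hNδ k C).1 (1 / 2) ((n + k / 2 + θ) * δ) = _
    rw [chd_half hm hδ hδr hL (o := ((k : ℝ) + 1) / 2) n (t := (n + k / 2 + θ) * δ)
      ⟨by nlinarith [hθ.1], by nlinarith [hθ.2]⟩]
    congr 1
    · congr 1
      ring
    · congr 1
      ring
    · field_simp
      ring
  have hd : dist ((itr hm hδ hδr hNδ k C).1 ((n + k / 2) * δ))
      ((itr hm hδ hδr hNδ k C).1 ((n + 1 + k / 2) * δ)) ≤ r := by
    refine (hL _ _).trans ?_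
    rw [show ((n : ℝ) + k / 2) * δ - (n + 1 + k / 2) * δ = -δ by ring, abs_neg, abs_of_pos hδ]
    exact hδr
  have h0 : vx hm hδ hδr hNδ k C n = (itr hm hδ hδr hNδ k C).1 ((n + k / 2) * δ) := by
    unfold vx
    have := key 0 ⟨le_rfl, zero_le_one⟩
    rw [add_zero, hm.zero _ _ hd] at this
    exact this
  have h1 : vx hm hδ hδr hNδ k C (n + 1) =
      (itr hm hδ hδr hNδ k C).1 ((n + 1 + k / 2) * δ) := by
    unfold vx
    have := key 1 ⟨zero_le_one, le_rfl⟩
    rw [hm.one _ _ hd] at this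
    rw [← this]
    congr 1
    push_cast
    ring
  rw [key θ hθ, h0, h1]

theorem vx_per (k : ℕ) (C : ↥(Per X c)) (n : ℤ) :
    vx hm hδ hδr hNδ k C (n + N) = vx hm hδ hδr hNδ k C n := by
  unfold vx
  have e : (((n + N : ℤ) : ℝ) + k / 2) * δ = (n + k / 2) * δ + c := by
    push_cast
    rw [hNδ]
    ring
  rw [e]
  exact (itr hm hδ hδr hNδ (k + 1) C).2.2 _

theorem vx_succ (k : ℕ) (C : ↥(Per X c)) (n : ℤ) :
    vx hm hδ hδr hNδ (k + 1) C n =
      m (vx hm hδ hδr hNδ k C n) (vx hm hδ hδr hNδ k C (n + 1)) (1 / 2) := by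
  rw [← itr_side hm hδ hδr hNδ k C n ⟨by norm_num, by norm_num⟩]
  -- the vertices of the new polygon lie on the old one
  have hL := (itr hm hδ hδr hNδ (k + 1) C).2.1
  unfold vx
  change chd m δ (((k + 1 : ℕ) + 1) / 2) (itr hm hδ hδr hNδ (k + 1) C).1 (1 / 2)
    ((n + (k + 1 : ℕ) / 2) * δ) = _
  rw [chd_half hm hδ hδr hL (o := (((k + 1 : ℕ) : ℝ) + 1) / 2) n
    (t := (n + (k + 1 : ℕ) / 2) * δ) ⟨by push_cast; nlinarith, by push_cast; nlinarith⟩]
  have e1 : ((n : ℝ) + ((k + 1 : ℕ) : ℝ) / 2) * δ -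
      (n + (((k + 1 : ℕ) : ℝ) + 1) / 2 - 1 / 2) * δ = 0 := by
    push_cast
    ring
  rw [e1, zero_div, hm.zero]
  · have e3 : ((n : ℝ) + (((k + 1 : ℕ) : ℝ) + 1) / 2 - 1 / 2) * δ = (n + k / 2 + 1 / 2) * δ := by
      push_cast
      ring
    rw [e3]
  · refine (hL _ _).trans ?_
    have e2 : ((n : ℝ) + (((k + 1 : ℕ) : ℝ) + 1) / 2 - 1 / 2) * δ -
        (n + (((k + 1 : ℕ) : ℝ) + 1) / 2 + 1 / 2) * δ = -δ := by ring
    rw [e2, abs_neg, abs_of_pos hδ]
    exact hδr

end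

/-- periodic sequences -/
theorem per_val {N : ℕ} [NeZero N] {v : ℤ → X} (hv : ∀ n, v (n + N) = v n) (n : ℤ) :
    v (((n : ZMod N).val : ℤ)) = v n := by
  have h1 : (((n : ZMod N).val : ℤ)) = n % N := ZMod.val_intCast n
  rw [h1]
  have h2 : ∀ k : ℕ, ∀ a : ℤ, v (a + N * k) = v a := by
    intro k
    induction k with
    | zero => intro a; simp
    | succ k ih =>
      intro a
      have : a + (N : ℤ) * ((k + 1 : ℕ) : ℤ) = (a + N * k) + N := by push_cast; ring
      rw [this, hv, ih]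
  have h3 : ∀ k : ℤ, ∀ a : ℤ, v (a + N * k) = v a := by
    intro k a
    rcases Int.eq_nat_or_neg k with ⟨j, hj | hj⟩
    · rw [hj]
      exact h2 j a
    · rw [hj]
      have := h2 j (a + N * (-(j : ℤ)))
      rw [← this]
      congr 1
      ring
  have h4 := h3 (n / N) (n % N)
  rw [Int.emod_add_mul_ediv] at h4
  exact h4.symm

section

variable {r : ℝ} {m : X → X → ℝ → X} (hm : GMap X r m) (hs : MSym r m) {δ c : ℝ} {N : ℕ}
  [NeZero N] (hδ : 0 < δ) (hδr : δ ≤ r) (hNδ : c = N * δ)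

/-- the polygons as elements of the library -/
def px (k : ℕ) (C : ↥(Per X c)) : ZMod N → X := fun i => vx hm hδ hδr hNδ k C (i.val : ℤ)

theorem px_int (k : ℕ) (C : ↥(Per X c)) (n : ℤ) :
    px (N := N) hm hδ hδr hNδ k C (n : ZMod N) = vx hm hδ hδr hNδ k C n :=
  per_val (vx_per hm hδ hδr hNδ k C) n

theorem px_next (k : ℕ) (C : ↥(Per X c)) (i : ZMod N) :
    px hm hδ hδr hNδ k C (i + 1) = vx hm hδ hδr hNδ k C ((i.val : ℤ) + 1) := by
  have e : i + 1 = (((i.val : ℤ) + 1 : ℤ) : ZMod N) := by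
    push_cast
    rw [ZMod.natCast_zmod_val]
  rw [e, px_int]

theorem px_mem (k : ℕ) (C : ↥(Per X c)) : px (N := N) hm hδ hδr hNδ k C ∈ Pol X N δ := by
  intro i
  rw [px_next]
  unfold px vx
  refine ((itr hm hδ hδr hNδ (k + 1) C).2.1 _ _).trans (le_of_eq ?_)
  push_cast
  rw [show ((i.val : ℝ) + k / 2) * δ - (i.val + 1 + k / 2) * δ = -δ by ring, abs_neg,
    abs_of_pos hδ]

theorem px_succ (k : ℕ) (C : ↥(Per X c)) :
    px (N := N) hm hδ hδr hNδ (k + 1) C = ph m N (1 / 2) (px hm hδ hδr hNδ k C) := by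
  funext i
  unfold ph
  rw [px_next]
  unfold px
  exact vx_succ hm hδ hδr hNδ k C _

end

/-- the energy becomes small after a uniform number of steps -/
theorem uniform_steps [CompactSpace X] (hEN : S_EN) {r : ℝ} {m : X → X → ℝ → X}
    (hm : GMap X r m) (N : ℕ) [NeZero N] {δ : ℝ} (hδ : 0 < δ) (hδr : δ ≤ r)
    (hne : ∀ x ∈ Pol X N δ, (δ / (2 * N)) ^ 2 ≤ En N x → En N (ph m N (1 / 2) x) ≠ En N x) :
    ∃ k : ℕ, ∀ x ∈ Pol X N δ, En N ((ph m N (1 / 2))^[k] x) < (δ / (2 * N)) ^ 2 := by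
  have hN : (0 : ℝ) < N := by exact_mod_cast Nat.pos_of_ne_zero (NeZero.ne N)
  have hhalf : (1 / 2 : ℝ) ∈ Icc (0 : ℝ) 1 := ⟨by norm_num, by norm_num⟩
  set e : ℝ := δ / (2 * N) with he
  have he0 : 0 < e := by positivity
  have hdec : ∃ η : ℝ, 0 < η ∧ ∀ x ∈ Pol X N δ, e ^ 2 ≤ En N x →
      En N (ph m N (1 / 2) x) ≤ En N x - η := by
    have hc1 : ContinuousOn (fun x : ZMod N → X => ph m N (1 / 2) x) (Pol X N δ) :=
      ph_cont hm N hδr continuousOn_id continuousOn_const (fun z hz => hz) (fun _ _ => hhalf)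
    have hc : ContinuousOn (fun x : ZMod N → X => En N x - En N (ph m N (1 / 2) x))
        (Pol X N δ) :=
      (En_cont N).continuousOn.sub ((En_cont N).comp_continuousOn hc1)
    set K : Set (ZMod N → X) := Pol X N δ ∩ {x | e ^ 2 ≤ En N x} with hK
    have hKc : IsCompact K :=
      (Pol_compact N δ).inter_right (isClosed_le continuous_const (En_cont N))
    rcases K.eq_empty_or_nonempty with h0 | h0
    · refine ⟨1, one_pos, fun x hx hx2 => ?_⟩
      have : x ∈ K := ⟨hx, hx2⟩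
      rw [h0] at this
      exact this.elim
    · obtain ⟨x0, hx0, hmin⟩ := hKc.exists_isMinOn h0 (hc.mono inter_subset_left)
      refine ⟨En N x0 - En N (ph m N (1 / 2) x0), ?_, fun x hx hx2 => ?_⟩
      · have h1 := (hEN X r m hm N δ hδr x0 hx0.1 (1 / 2) hhalf).2
        have h2 := hne x0 hx0.1 hx0.2
        exact sub_pos.2 (lt_of_le_of_ne h1 h2)
      · have h3 : En N x0 - En N (ph m N (1 / 2) x0) ≤ En N x - En N (ph m N (1 / 2) x) :=
          hmin (⟨hx, hx2⟩ : x ∈ K)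
        linarith
  obtain ⟨η, hη, hdec⟩ := hdec
  have hmem : ∀ k : ℕ, ∀ x ∈ Pol X N δ, (ph m N (1 / 2))^[k] x ∈ Pol X N δ := by
    intro k x hx
    induction k with
    | zero => exact hx
    | succ k ih =>
      rw [Function.iterate_succ_apply']
      exact (hEN X r m hm N δ hδr _ ih (1 / 2) hhalf).1
  have hen : ∀ k : ℕ, ∀ x ∈ Pol X N δ, En N ((ph m N (1 / 2))^[k] x) < e ^ 2 ∨
      En N ((ph m N (1 / 2))^[k] x) ≤ En N x - k * η := by
    intro k x hx
    induction k with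
    | zero => right; simp
    | succ k ih =>
      rw [Function.iterate_succ_apply']
      have hle := (hEN X r m hm N δ hδr _ (hmem k x hx) (1 / 2) hhalf).2
      rcases ih with h | h
      · left; exact hle.trans_lt h
      · rcases lt_or_ge (En N ((ph m N (1 / 2))^[k] x)) (e ^ 2) with h2 | h2
        · left; exact hle.trans_lt h2
        · right
          have h3 := hdec _ (hmem k x hx) h2
          push_cast
          linarith
  obtain ⟨k, hk⟩ := exists_nat_gt (N * δ ^ 2 / η)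
  refine ⟨k, fun x hx => ?_⟩
  rcases hen k x hx with h | h
  · exact h
  · have h1 := En_le N hx
    have h2 := En_nonneg N ((ph m N (1 / 2))^[k] x)
    rw [div_lt_iff₀ hη] at hk
    exfalso
    linarith

end Pool.Agent.L7h61.CL
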