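import Pool.Agent.L7h61.CL.Ksym
import Pool.Agent.L7h61.CL.Dsym
import Pool.Agent.Y489.GE.Fin
import Pool.Agent.Y467.GE.MG
import Pool.Agent.Y165.GE.CG
import Pool.Agent.Y812.GE.EN

/-!
# Project TM: assembly (helper61)
-/

set_option autoImplicit false

open Set Topology

noncomputable section

namespace Pool.Agent.L7h61.CL

open Pool.Agent.Y489.GE Pool.Agent.Y50.GE

/-- a minimal geodesic from `x` to `y`, parametrised by arc length on `[0, dist x y]` and constant
outside this interval -/
def MinGeod {X : Type} [MetricSpace X] (x y : X) (γ : ℝ → X) : Prop := Trk γ x y (dist x y)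

/-- there are at most two minimal geodesics from `x` to `y` -/
def AtMostTwo {X : Type} [MetricSpace X] (x y : X) : Prop :=
  ∀ α β γ : ℝ → X, MinGeod x y α → MinGeod x y β → MinGeod x y γ → α = β ∨ α = γ ∨ β = γ

theorem msym_of_uniq {X : Type} [MetricSpace X] {r : ℝ} (hr : 0 < r) (hU : UniqGeod X r)
    {m : X → X → ℝ → X} (hm : GMap X (r / 2) m) : MSym (r / 2) m := by
  intro x y hd t ht
  have hd' : dist y x ≤ r / 2 := by rw [dist_comm]; exact hd
  have ht' : 1 - t ∈ Icc (0 : ℝ) 1 := ⟨by linarith [ht.2], by linarith [ht.1]⟩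
  have e1 := hm.dist_left hd ht
  have e2 := hm.dist_right hd ht
  have e3 := hm.dist_left hd' ht'
  have e4 := hm.dist_right hd' ht'
  rw [dist_comm y x] at e3 e4
  rw [dist_comm] at e3
  rw [dist_comm] at e4
  refine hU x y _ _ (by linarith) ?_ ?_ ?_
  · rw [e1, e2]
    ring
  · rw [e4, e3]
    ring
  · rw [e1, e4]
    ring

/-- the general theorem, conditional on PART C -/
theorem three_main (h_SOFT : S_SOFT) (X : Type) [MetricSpace X] [CompactSpace X] (hE : ENR X)
    (r : ℝ) (hr : 0 < r) (hX : GeodSpace X) (hU : UniqGeod X r) (W : Type) [MetricSpace W]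
    [CompactSpace W] (f g : C(W, X)) (L : ℝ) (S : Set (W × (ℝ → X))) (hL : 0 < L)
    (hS : IsClosed S) (hne : ∀ w, ∃ γ, (w, γ) ∈ S)
    (h2 : ∀ w α β γ, (w, α) ∈ S → (w, β) ∈ S → (w, γ) ∈ S → α = β ∨ α = γ ∨ β = γ)
    (hT : ∀ z ∈ S, Trk z.2 (f z.1) (g z.1) L) : ClosedGeod X (2 * L) ∨ f.Homotopic g := by
  obtain ⟨m, hm⟩ := Pool.Agent.Y467.GE.t_MG X r hr hX hU
  have hr2 : 0 < r / 2 := by linarith
  have hs := msym_of_uniq hr hU hm
  by_cases hno : ClosedGeod X (2 * L)
  · exact Or.inl hno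
  · right
    obtain ⟨D, hD⟩ := dsym_of_no Pool.Agent.Y165.GE.t_CG Pool.Agent.Y812.GE.t_EN X (r / 2) m hr2
      hm hs (2 * L) (by linarith) hno
    obtain ⟨K, hK⟩ := s_KSYM X (r / 2) m hr2 hm hs L hL D hD W (fun w => f w) (fun w => g w)
      (map_continuous f) (map_continuous g) S hS hT
    exact h_SOFT X hE W f g L S K hL hS hne h2 hT hK

theorem Trk.mono' {X : Type} [MetricSpace X] {γ : ℝ → X} {x y : X} {T T' : ℝ} (h : Trk γ x y T)
    (hT : T ≤ T') : Trk γ x y T' := ⟨h.1, h.2.1, fun t ht => h.2.2 t (hT.trans ht)⟩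

/-- the set of minimal geodesics is closed -/
theorem minGeod_closed {X W : Type} [MetricSpace X] [TopologicalSpace W]
    (f g : C(W, X)) : IsClosed {z : W × (ℝ → X) | MinGeod (f z.1) (g z.1) z.2} := by
  set T0 : Set (W × (ℝ → X)) := {z | ∀ s t, dist (z.2 s) (z.2 t) ≤ |s - t|} with hT0
  have hT0c : IsClosed T0 := by
    have : T0 = ⋂ s : ℝ, ⋂ t : ℝ, {z : W × (ℝ → X) | dist (z.2 s) (z.2 t) ≤ |s - t|} := by
      ext z
      simp [hT0]
    rw [this]
    refine isClosed_iInter fun s => isClosed_iInter fun t => ?_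
    exact isClosed_le (((continuous_apply s).comp continuous_snd).dist
      ((continuous_apply t).comp continuous_snd)) continuous_const
  have h1 : IsClosed {z : W × (ℝ → X) | ∀ t, t ≤ 0 → z.2 t = f z.1} := by
    have : {z : W × (ℝ → X) | ∀ t, t ≤ 0 → z.2 t = f z.1} =
        ⋂ t : ℝ, ⋂ _ : t ≤ 0, {z : W × (ℝ → X) | z.2 t = f z.1} := by
      ext z
      simp
    rw [this]
    refine isClosed_iInter fun t => isClosed_iInter fun _ => ?_
    exact isClosed_eq ((continuous_apply t).comp continuous_snd)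
      ((map_continuous f).comp continuous_fst)
  have h2 : ∀ t : ℝ, IsClosed (T0 ∩ {z : W × (ℝ → X) |
      z.2 (max t (dist (f z.1) (g z.1))) = g z.1}) := by
    intro t
    have hd : Continuous fun z : W × (ℝ → X) => max t (dist (f z.1) (g z.1)) :=
      continuous_const.max (((map_continuous f).comp continuous_fst).dist
        ((map_continuous g).comp continuous_fst))
    have e1 : ContinuousOn (fun z : W × (ℝ → X) =>
        ((z.2 (max t (dist (f z.1) (g z.1))), g z.1) : X × X)) T0 := by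
      intro z hz
      exact (eval_within hz (F := fun z : W × (ℝ → X) => z.2)
        (τ := fun z => max t (dist (f z.1) (g z.1))) continuous_snd.continuousWithinAt
        (fun z hz => hz) hd.continuousWithinAt).prodMk
        ((map_continuous g).comp continuous_fst).continuousWithinAt
    exact e1.preimage_isClosed_of_isClosed hT0c isClosed_diagonal
  have h3 : {z : W × (ℝ → X) | MinGeod (f z.1) (g z.1) z.2} =
      {z : W × (ℝ → X) | ∀ t, t ≤ 0 → z.2 t = f z.1} ∩
        ⋂ t : ℝ, (T0 ∩ {z : W × (ℝ → X) | z.2 (max t (dist (f z.1) (g z.1))) = g z.1}) := by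
    ext z
    simp only [mem_inter_iff, mem_iInter, mem_setOf_eq]
    constructor
    · intro h
      exact ⟨h.2.1, fun t => ⟨h.1, h.2.2 _ (le_max_right _ _)⟩⟩
    · intro h
      refine ⟨(h.2 0).1, h.1, fun t ht => ?_⟩
      have := (h.2 t).2
      rwa [max_eq_left ht] at this
  rw [h3]
  exact h1.inter (isClosed_iInter h2)

end Pool.Agent.L7h61.CL
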